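import Pool.Agent.MP8d69b9.Closure

/-!
# The categories of algebraic representations
-/

open CategoryTheory MonoidalCategory Limits

noncomputable section

namespace Pool.Agent.MP8d69b9

/-- The category of algebraic representations of `H`: the full subcategory of the
category of all complex representations of `H` on the subquotients of finite direct sums of
tensor powers of `V = C^∞`. For `H = GA(∞)` this is the category of polynomial representations
of `GA(∞)`, and for `H = 𝔖(∞)` the category of algebraic representations of `𝔖(∞)`. -/
def AlgRep (H : Subgroup (CInf ≃ₗ[ℂ] CInf)) : Type 1 := (isAlgebraic H).FullSubcategory

section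

variable (H : Subgroup (CInf ≃ₗ[ℂ] CInf))

instance : Category.{0} (AlgRep H) := ObjectProperty.FullSubcategory.category (isAlgebraic H)

/-- Algebraic representations form an abelian category. -/
instance : Abelian (AlgRep H) := (inferInstance : Abelian (isAlgebraic H).FullSubcategory)

/-- The tensor product of algebraic representations is the tensor product over `ℂ`. -/
instance : MonoidalCategory (AlgRep H) := (isAlgebraic H).fullMonoidalSubcategory

instance : MonoidalPreadditive (AlgRep H) :=
  (inferInstance : MonoidalPreadditive (isAlgebraic H).FullSubcategory)

end

end Pool.Agent.MP8d69b9
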