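import Mathlib

noncomputable section

namespace Pool.Agent.MP8d69b9

/-! A purely linear-algebraic form of the homotopy computation. -/

section

variable {A B : ℤ → Type} [∀ i, AddCommGroup (A i)] [∀ i, Module ℂ (A i)]
  [∀ i, AddCommGroup (B i)] [∀ i, Module ℂ (B i)]
  (dA : ∀ i j : ℤ, A i →ₗ[ℂ] A j) (dB : ∀ i j : ℤ, B i →ₗ[ℂ] B j)
  (pA : ∀ i : ℤ, A i →ₗ[ℂ] A i) (pB : ∀ i : ℤ, B i →ₗ[ℂ] B i)
  (s : ∀ i j : ℤ, A i →ₗ[ℂ] A j) (t : ∀ i j : ℤ, B i →ₗ[ℂ] B j)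
  (F : ∀ i j : ℤ, A i →ₗ[ℂ] B j →ₗ[ℂ] ℂ)

/-- The bilinear forms defining the homotopy. -/
def hom₂ (i j : ℤ) : A i →ₗ[ℂ] B j →ₗ[ℂ] ℂ :=
  if 0 ≤ i then F (i - 1) j ∘ₗ s i (i - 1)
  else ((i.negOnePow : ℤ) : ℂ) •
    (F i (j - 1) ∘ₗ (LinearMap.id - s (i + 1) i ∘ₗ dA i (i + 1))).compl₂ (t j (j - 1))

variable {dA dB pA pB s t F}

lemma hom₂_of_nonneg (hFr : ∀ i j x y, F i j x (pB j y) = F i j x y)
    (hs : ∀ i j x, s i j (pA i x) = s i j x) (i i₀ j : ℤ) (hi : 0 ≤ i) (hi₀ : i₀ + 1 = i)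
    (x : A i) (y : B j) :
    hom₂ dA s t F i j (pA i x) (pB j y) = F i₀ j (s i i₀ x) y := by
  obtain rfl : i₀ = i - 1 := by omega
  rw [hom₂, if_pos hi, LinearMap.comp_apply, hs, hFr]

lemma hom₂_of_neg (hFl : ∀ i j x y, F i j (pA i x) y = F i j x y)
    (hd : ∀ i j x, dA i j (pA i x) = pA j (dA i j x))
    (hs : ∀ i j x, s i j (pA i x) = s i j x) (ht : ∀ i j x, t i j (pB i x) = t i j x)
    (i i₁ j j₀ : ℤ) (hi : i < 0) (hi₁ : i + 1 = i₁) (hj₀ : j₀ + 1 = j)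
    (x : A i) (y : B j) :
    hom₂ dA s t F i j (pA i x) (pB j y) =
      ((i.negOnePow : ℤ) : ℂ) • F i j₀ (x - s i₁ i (dA i i₁ x)) (t j j₀ y) := by
  obtain rfl : j₀ = j - 1 := by omega
  subst hi₁
  rw [hom₂, if_neg (not_le.2 hi)]
  simp only [LinearMap.smul_apply, LinearMap.compl₂_apply, LinearMap.comp_apply,
    LinearMap.sub_apply, LinearMap.id_apply, ht, hd, hs, map_sub]
  rw [hFl]

lemma negOnePow_mul_self (n : ℤ) : ((n.negOnePow : ℤ) : ℂ) * ((n.negOnePow : ℤ) : ℂ) = 1 := by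
  rw [← Int.cast_mul, ← Units.val_mul, Int.units_mul_self, Units.val_one, Int.cast_one]

lemma negOnePow_succ (n : ℤ) : (((n + 1).negOnePow : ℤ) : ℂ) = - ((n.negOnePow : ℤ) : ℂ) := by
  rw [Int.negOnePow_succ]; simp

/-- The key computation. -/
lemma hom₂_comm (hFl : ∀ i j x y, F i j (pA i x) y = F i j x y)
    (hFr : ∀ i j x y, F i j x (pB j y) = F i j x y)
    (hd : ∀ i j x, dA i j (pA i x) = pA j (dA i j x))
    (hdd : ∀ i j k x, dA j k (dA i j x) = 0)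
    (hg : ∀ i i' j j' : ℤ, i + 1 = i' → j + 1 = j' → i + j = 0 - 1 → ∀ (x : A i) (y : B j),
      F i' j (dA i i' x) y + ((i.negOnePow : ℤ) : ℂ) • F i j' x (dB j j' y) = 0)
    (hs : ∀ i j x, s i j (pA i x) = s i j x) (ht : ∀ i j x, t i j (pB i x) = t i j x)
    (hs0 : ∀ i j x, i < 0 → s i j x = 0)
    (hs1 : ∀ i j k, 0 ≤ i → j + 1 = i → i + 1 = k → ∀ x,
        dA j i (s i j x) + s k i (dA i k x) = pA i x)
    (ht1 : ∀ i j k, 0 ≤ i → j + 1 = i → i + 1 = k → ∀ x,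
        dB j i (t i j x) + t k i (dB i k x) = pB i x)
    (i i' j j' : ℤ) (hi : i + 1 = i') (hj : j + 1 = j') (h : i + j = 0)
    (x : A i) (y : B j) :
    hom₂ dA s t F i' j (pA i' (dA i i' x)) (pB j y) +
      ((i.negOnePow : ℤ) : ℂ) • hom₂ dA s t F i j' (pA i x) (pB j' (dB j j' y)) =
      F i j x y := by
  have hsq := negOnePow_mul_self
  obtain ⟨i₀, hi₀⟩ : ∃ i₀, i₀ + 1 = i := ⟨i - 1, by omega⟩
  obtain ⟨j₀, hj₀⟩ : ∃ j₀, j₀ + 1 = j := ⟨j - 1, by omega⟩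
  rcases lt_or_ge i 0 with hneg | hpos
  · -- the case `i < 0`
    have hy : t j' j (dB j j' y) = pB j y - dB j₀ j (t j j₀ y) := by
      rw [eq_sub_iff_add_eq, add_comm]
      exact ht1 j j₀ j' (by omega) hj₀ hj y
    rw [hom₂_of_neg hFl hd hs ht i i' j' j hneg hi hj, hy, smul_smul, hsq, one_smul]
    rcases lt_or_ge i' 0 with hneg' | hpos'
    · obtain ⟨i'', hi''⟩ : ∃ i'', i' + 1 = i'' := ⟨i' + 1, rfl⟩
      rw [hom₂_of_neg hFl hd hs ht i' i'' j j₀ hneg' hi'' hj₀, hdd, map_zero, sub_zero,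
        hs0 i' i _ hneg', sub_zero, map_sub, hFr]
      have hc := hg i i' j₀ j hi hj₀ (by omega) x (t j j₀ y)
      have hc' : F i' j₀ (dA i i' x) (t j j₀ y) =
          - (((i.negOnePow : ℤ) : ℂ) • F i j x (dB j₀ j (t j j₀ y))) :=
        eq_neg_of_add_eq_zero_left hc
      rw [hc', ← hi, negOnePow_succ, smul_neg, neg_smul, neg_neg, smul_smul, hsq, one_smul]
      ring
    · obtain rfl : i' = 0 := by omega
      rw [hom₂_of_nonneg hFr hs 0 i j le_rfl hi, map_sub, hFr]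
      have hc := hg i 0 j₀ j hi hj₀ (by omega) (x - s 0 i (dA i 0 x)) (t j j₀ y)
      have h1 := hs1 0 i 1 le_rfl hi (by norm_num) (dA i 0 x)
      rw [hdd, map_zero, add_zero] at h1
      have h2 : F 0 j₀ (dA i 0 (x - s 0 i (dA i 0 x))) (t j j₀ y) = 0 := by
        rw [map_sub, h1, map_sub, LinearMap.sub_apply, hFl, sub_self]
      rw [h2, zero_add] at hc
      have h3 : F i j (x - s 0 i (dA i 0 x)) (dB j₀ j (t j j₀ y)) = 0 := by
        have := congrArg (fun z => ((i.negOnePow : ℤ) : ℂ) • z) hc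
        simpa only [smul_smul, hsq, one_smul, smul_zero] using this
      rw [h3, sub_zero, map_sub, LinearMap.sub_apply]
      ring
  · -- the case `0 ≤ i`
    rw [hom₂_of_nonneg hFr hs i' i j (by omega) hi, hom₂_of_nonneg hFr hs i i₀ j' hpos hi₀]
    have hc := hg i₀ i j j' hi₀ hj (by omega) (s i i₀ x) y
    have hc' : F i j (dA i₀ i (s i i₀ x)) y =
        ((i.negOnePow : ℤ) : ℂ) • F i₀ j' (s i i₀ x) (dB j j' y) := by
      have h4 : ((i.negOnePow : ℤ) : ℂ) = - ((i₀.negOnePow : ℤ) : ℂ) := by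
        rw [← hi₀, negOnePow_succ]
      rw [h4, neg_smul]
      exact eq_neg_of_add_eq_zero_left hc
    rw [← hc', ← LinearMap.add_apply, ← map_add, add_comm, hs1 i i₀ i' hpos hi₀ hi, hFl]

end

end Pool.Agent.MP8d69b9
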