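import Mathlib

/-!
# Bounded complexes and their tensor products
-/

open CategoryTheory Limits MonoidalCategory HomologicalComplex

noncomputable section

namespace Pool.Agent.MP8d69b9

universe v u w

section

variable {C : Type u} [Category.{v} C] [Preadditive C]

/-- A family with only finitely many nonzero members has a coproduct. -/
lemma hasCoproduct_of_finite [HasFiniteCoproducts C] {J : Type w} (F : J → C) (S : Finset J)
    (hS : ∀ j ∉ S, IsZero (F j)) : HasCoproduct F := by
  classical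
  let c : Cofan F := Cofan.mk (∐ fun j : S => F j.1)
    (fun j => if h : j ∈ S then Sigma.ι (fun j : S => F j.1) ⟨j, h⟩ else 0)
  refine ⟨⟨⟨c, Cofan.IsColimit.mk c (fun s => Sigma.desc (fun j : S => s.inj j.1)) ?_ ?_⟩⟩⟩
  · intro s j
    by_cases h : j ∈ S
    · simp only [c, cofan_mk_inj, dif_pos h, Sigma.ι_desc]
    · exact (hS j h).eq_of_src _ _
  · intro s m hm
    refine Sigma.hom_ext (f := fun j : S => F j.1) m _ ?_
    rintro ⟨j, hj⟩
    rw [Sigma.ι_desc, ← hm j]
    simp only [c, cofan_mk_inj, dif_pos hj]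

end

/-- `K` is a bounded complex. -/
def IsBoundedComplex {C : Type u} [Category.{v} C] [HasZeroMorphisms C]
    (K : CochainComplex C ℤ) : Prop :=
  ∃ a b : ℤ, ∀ i : ℤ, i < a ∨ b < i → IsZero (K.X i)

section

variable {C : Type u} [Category.{v} C] [Preadditive C] [MonoidalCategory C] [MonoidalPreadditive C]
  [HasZeroObject C] (K L : CochainComplex C ℤ)

omit [HasZeroObject C] in
lemma isZero_tensor_left {X Y : C} (h : IsZero X) : IsZero (X ⊗ Y) :=
  (tensorRight Y).map_isZero h

omit [HasZeroObject C] in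
lemma isZero_tensor_right {X Y : C} (h : IsZero Y) : IsZero (X ⊗ Y) :=
  (tensorLeft X).map_isZero h

omit [HasZeroObject C] in
/-- The finite set of indices contributing to degree `n` of `K ⊗ L`. -/
lemma exists_finset (hK : IsBoundedComplex K) (hL : IsBoundedComplex L) (n : ℤ) :
    ∃ S : Finset ((ComplexShape.π (ComplexShape.up ℤ) (ComplexShape.up ℤ) (ComplexShape.up ℤ)) ⁻¹' {n}),
      ∀ j ∉ S, IsZero (K.X j.1.1 ⊗ L.X j.1.2) := by
  obtain ⟨a, b, hab⟩ := hK
  obtain ⟨a', b', hab'⟩ := hL
  classical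
  let f : ((ComplexShape.π (ComplexShape.up ℤ) (ComplexShape.up ℤ) (ComplexShape.up ℤ)) ⁻¹' {n}) → ℤ :=
    fun j => j.1.1
  have hf : Function.Injective f := by
    rintro ⟨⟨i, j⟩, h⟩ ⟨⟨i', j'⟩, h'⟩ hii
    have h1 : i + j = n := h
    have h2 : i' + j' = n := h'
    have h3 : i = i' := hii
    have h4 : j = j' := by omega
    subst h3; subst h4; rfl
  have hfin : (f ⁻¹' (Set.Icc a b)).Finite := Set.Finite.preimage hf.injOn (Set.finite_Icc a b)
  refine ⟨hfin.toFinset, fun j hj => ?_⟩
  rw [Set.Finite.mem_toFinset] at hj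
  apply isZero_tensor_left
  apply hab
  have : ¬ (a ≤ j.1.1 ∧ j.1.1 ≤ b) := hj
  omega

omit [HasZeroObject C] in
lemma hasTensor_of_bounded [HasFiniteCoproducts C] (hK : IsBoundedComplex K)
    (hL : IsBoundedComplex L) : HasTensor K L := by
  intro n
  obtain ⟨S, hS⟩ := exists_finset K L hK hL n
  exact hasCoproduct_of_finite _ S hS

end

section

variable {C : Type u} [Category.{v} C] [Preadditive C] [MonoidalCategory C] [MonoidalPreadditive C]

section

variable (K L : CochainComplex C ℤ) [HasTensor K L] {n : ℤ} {A : C}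

/-- Descent for tensor products of complexes. -/
def tDesc (f : ∀ i j : ℤ, i + j = n → (K.X i ⊗ L.X j ⟶ A)) : (tensorObj K L).X n ⟶ A :=
  mapBifunctorDesc (fun i j h => f i j h)

@[reassoc (attr := simp)]
lemma ι_tDesc (f : ∀ i j : ℤ, i + j = n → (K.X i ⊗ L.X j ⟶ A)) (i j : ℤ) (h : i + j = n) :
    ιTensorObj K L i j n h ≫ tDesc K L f = f i j h := by
  exact ι_mapBifunctorDesc _ i j h

variable {K L}

lemma tensor_hom_ext {f g : (tensorObj K L).X n ⟶ A}
    (h : ∀ (i j : ℤ) (hij : i + j = n), ιTensorObj K L i j n hij ≫ f = ιTensorObj K L i j n hij ≫ g) :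
    f = g :=
  mapBifunctor.hom_ext (fun i j hij => h i j hij)

end

end

end Pool.Agent.MP8d69b9
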