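import Pool.Agent.MP8d69b9.Defs

open CategoryTheory MonoidalCategory Limits

noncomputable section

namespace Pool.Agent.MP8d69b9

variable (H : Subgroup (CInf ≃ₗ[ℂ] CInf))

attribute [local instance] Abelian.hasFiniteBiproducts

lemma isAlgebraic_of_epi {M M' : Rep.{0} ℂ (Grp H)} (f : M ⟶ M') [Epi f] (h : isAlgebraic H M) :
    isAlgebraic H M' := by
  obtain ⟨J, hJ, n, N, i, p, hi, hp⟩ := h
  exact ⟨J, hJ, n, N, i, p ≫ f, hi, inferInstance⟩

lemma isAlgebraic_of_mono {M M' : Rep.{0} ℂ (Grp H)} (f : M' ⟶ M) [Mono f] (h : isAlgebraic H M) :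
    isAlgebraic H M' := by
  obtain ⟨J, hJ, n, N, i, p, hi, hp⟩ := h
  exact ⟨J, hJ, n, pullback p f, pullback.fst p f ≫ i, pullback.snd p f, inferInstance,
    inferInstance⟩

instance : (isAlgebraic H).IsClosedUnderQuotients where
  prop_of_epi f _ h := isAlgebraic_of_epi H f h

instance : (isAlgebraic H).IsClosedUnderSubobjects where
  prop_of_mono f _ h := isAlgebraic_of_mono H f h

lemma isAlgebraic_biproduct {J : Type} [Fintype J] (M : J → Rep.{0} ℂ (Grp H))
    (h : ∀ j, isAlgebraic H (M j)) : isAlgebraic H (⨁ M) := by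
  choose K hK n N i p hi hp using h
  have := hi
  have := hp
  refine ⟨Σ j, K j, inferInstance, fun q => n q.1 q.2, ⨁ N,
    biproduct.map i ≫ (biproductBiproductIso K (fun j k => tensorPow H (n j k))).hom,
    biproduct.map p, inferInstance, inferInstance⟩

lemma isAlgebraic_tensorPow (n : ℕ) : isAlgebraic H (tensorPow H n) :=
  ⟨PUnit, inferInstance, fun _ => n, tensorPow H n, biproduct.ι (fun _ : PUnit => tensorPow H n) ⟨⟩,
    𝟙 _, inferInstance, inferInstance⟩

instance : (isAlgebraic H).ContainsZero where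
  exists_zero := by
    refine ⟨⨁ (fun _ : PEmpty => (𝟙_ (Rep.{0} ℂ (Grp H)))), ?_,
      isAlgebraic_biproduct H (J := PEmpty) _ (fun j => j.elim)⟩
    rw [IsZero.iff_id_eq_zero]
    ext j
    exact j.elim

instance : (isAlgebraic H).IsClosedUnderFiniteProducts where
  isClosedUnderLimitsOfShape J hJ := by
    classical
    have := Fintype.ofFinite J
    refine ⟨fun X ⟨p⟩ => ?_⟩
    have e : X ≅ ⨁ (fun j => p.diag.obj ⟨j⟩) := by
      exact p.isLimit.conePointUniqueUpToIso (limit.isLimit p.diag) ≪≫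
        (Pi.isoLimit p.diag).symm ≪≫ (biproduct.isoProduct _).symm
    exact (isAlgebraic H).prop_of_iso e.symm
      (isAlgebraic_biproduct H _ (fun j => p.prop_diag_obj ⟨j⟩))

instance mono_whiskerRight {M N : Rep.{0} ℂ (Grp H)} (f : M ⟶ N) [Mono f] (X : Rep.{0} ℂ (Grp H)) :
    Mono (f ▷ X) := by
  rw [Rep.mono_iff_injective] at *
  exact Module.Flat.rTensor_preserves_injective_linearMap (M := X.V) f.hom.toLinearMap ‹_›

instance mono_whiskerLeft {M N : Rep.{0} ℂ (Grp H)} (f : M ⟶ N) [Mono f] (X : Rep.{0} ℂ (Grp H)) :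
    Mono (X ◁ f) := by
  rw [Rep.mono_iff_injective] at *
  exact Module.Flat.lTensor_preserves_injective_linearMap (M := X.V) f.hom.toLinearMap ‹_›

instance epi_whiskerRight {M N : Rep.{0} ℂ (Grp H)} (f : M ⟶ N) [Epi f] (X : Rep.{0} ℂ (Grp H)) :
    Epi (f ▷ X) := by
  rw [Rep.epi_iff_surjective] at *
  exact LinearMap.rTensor_surjective X.V (g := f.hom.toLinearMap) ‹_›

instance epi_whiskerLeft {M N : Rep.{0} ℂ (Grp H)} (f : M ⟶ N) [Epi f] (X : Rep.{0} ℂ (Grp H)) :
    Epi (X ◁ f) := by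
  rw [Rep.epi_iff_surjective] at *
  exact LinearMap.lTensor_surjective X.V (g := f.hom.toLinearMap) ‹_›

def tensorPowAdd : (m n : ℕ) → (tensorPow H m ⊗ tensorPow H n ≅ tensorPow H (m + n))
  | 0, n => λ_ _ ≪≫ eqToIso (by rw [Nat.zero_add])
  | m + 1, n => α_ _ _ _ ≪≫ whiskerLeftIso (stdRep H) (tensorPowAdd m n) ≪≫
      eqToIso (by rw [show m + 1 + n = (m + n) + 1 by omega]; rfl)

instance : (isAlgebraic H).IsMonoidal where
  prop_unit := isAlgebraic_tensorPow H 0
  prop_tensor X₁ X₂ h₁ h₂ := by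
    obtain ⟨J, hJ, n, N, i, p, hi, hp⟩ := h₁
    obtain ⟨J', hJ', n', N', i', p', hi', hp'⟩ := h₂
    have key : isAlgebraic H ((⨁ fun j => tensorPow H (n j)) ⊗ (⨁ fun j => tensorPow H (n' j))) := by
      refine (isAlgebraic H).prop_of_iso (rightDistributor _ _).symm ?_
      refine isAlgebraic_biproduct H _ (fun j => ?_)
      refine (isAlgebraic H).prop_of_iso (leftDistributor _ _).symm ?_
      refine isAlgebraic_biproduct H _ (fun j' => ?_)
      exact (isAlgebraic H).prop_of_iso (tensorPowAdd H _ _).symm (isAlgebraic_tensorPow H _)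
    have h2 : isAlgebraic H (N ⊗ N') := by
      have : Mono (i ▷ N' ≫ _ ◁ i') := inferInstance
      exact isAlgebraic_of_mono H (i ▷ N' ≫ _ ◁ i') key
    have : Epi (p ▷ N' ≫ _ ◁ p') := inferInstance
    exact isAlgebraic_of_epi H (p ▷ N' ≫ _ ◁ p') h2

end Pool.Agent.MP8d69b9
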