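import Mathlib

open CategoryTheory Limits CochainComplex HomologicalComplex

noncomputable section

namespace Pool.Agent.MP8d69b9

universe w v u

variable {C : Type u} [Category.{v} C] [Abelian C]

/-- The complex with `X` in degree `q`. -/
abbrev sgl (q : ℤ) (X : C) : CochainComplex C ℤ := (HomologicalComplex.single C (ComplexShape.up ℤ) q).obj X

lemma homotopy_zero_of_factor' (K : CochainComplex C ℤ) (q : ℤ) (X : C)
    (φ : K ⟶ (CochainComplex.singleFunctor C q).obj X)
    (h : K.X (q + 1) ⟶ X)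
    (hφ : φ.f q ≫ (singleObjXSelf (ComplexShape.up ℤ) q X).hom = K.d q (q + 1) ≫ h) :
    Nonempty (Homotopy φ 0) := by
  refine ⟨(HomComplex.Cochain.equivHomotopy φ 0).symm
    ⟨HomComplex.Cochain.toSingleMk h (by omega), ?_⟩⟩
  rw [HomComplex.Cochain.δ_toSingleMk h (by omega) 0 q (by omega), HomComplex.Cochain.ofHom_zero,
    add_zero, Int.negOnePow_zero, one_smul, ← hφ]
  apply (HomComplex.Cochain.toSingleEquiv (p := q) (q := q) (n := 0) (by omega)).injective
  rw [HomComplex.Cochain.toSingleEquiv_toSingleMk]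
  simp [HomComplex.Cochain.toSingleEquiv]

lemma homotopy_zero_of_factor (K : CochainComplex C ℤ) (q : ℤ) (X : C) (φ : K ⟶ sgl q X)
    (h : K.X (q + 1) ⟶ X)
    (hφ : φ.f q ≫ (singleObjXSelf (ComplexShape.up ℤ) q X).hom = K.d q (q + 1) ≫ h) :
    Nonempty (Homotopy φ 0) := homotopy_zero_of_factor' K q X φ h hφ

lemma exists_factor_of_homotopy (K : CochainComplex C ℤ) (q : ℤ) (X : C) (φ : K ⟶ sgl q X)
    (H : Homotopy φ 0) :
    ∃ h : K.X (q + 1) ⟶ X,
      φ.f q ≫ (singleObjXSelf (ComplexShape.up ℤ) q X).hom = K.d q (q + 1) ≫ h := by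
  refine ⟨H.hom (q + 1) q ≫ (singleObjXSelf (ComplexShape.up ℤ) q X).hom, ?_⟩
  have h := H.comm q
  rw [dNext_eq H.hom (show (ComplexShape.up ℤ).Rel q (q + 1) by simp),
    prevD_eq H.hom (show (ComplexShape.up ℤ).Rel (q - 1) q by simp)] at h
  rw [h]
  simp

/-- Condition on a complex saying that any morphism in the derived category to the injective
object `I` placed in degree `q` is zero. -/
def Factors (K : CochainComplex C ℤ) (q : ℤ) (I : C) : Prop :=
  ∀ g : K.X q ⟶ I, K.d (q - 1) q ≫ g = 0 → ∃ h : K.X (q + 1) ⟶ I, K.d q (q + 1) ≫ h = g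

lemma Factors.homotopy {K : CochainComplex C ℤ} {q : ℤ} {I : C} (hF : Factors K q I)
    (φ : K ⟶ sgl q I) : Nonempty (Homotopy φ 0) := by
  obtain ⟨h, hh⟩ := hF (φ.f q ≫ (singleObjXSelf (ComplexShape.up ℤ) q I).hom) (by
    rw [← φ.comm_assoc]; simp)
  exact homotopy_zero_of_factor K q I φ h hh.symm

lemma factors_of_homotopy {K : CochainComplex C ℤ} {q : ℤ} {I : C}
    (H : ∀ φ : K ⟶ sgl q I, Nonempty (Homotopy φ 0)) : Factors K q I := by
  intro g hg
  let φ : K ⟶ sgl q I := HomologicalComplex.mkHomToSingle g (by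
    intro i hi
    obtain rfl : i = q - 1 := by
      simp only [ComplexShape.up_Rel] at hi; omega
    exact hg)
  obtain ⟨h, hh⟩ := exists_factor_of_homotopy K q I φ (H φ).some
  refine ⟨h, ?_⟩
  rw [← hh]
  simp [φ]

variable [HasDerivedCategory.{w} C]

instance sgl_isKInjective (q : ℤ) (I : C) [Injective I] : (sgl q I).IsKInjective := by
  have : ∀ n : ℤ, Injective ((sgl q I).X n) := by
    intro n
    by_cases hn : n = q
    · subst hn
      exact Injective.of_iso (singleObjXSelf (ComplexShape.up ℤ) n I).symm inferInstance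
    · exact (isZero_single_obj_X _ _ _ _ hn).injective
  have : (sgl q I).IsStrictlyGE q := inferInstance
  exact isKInjective_of_injective (sgl q I) q

lemma Factors.eq_zero {K : CochainComplex C ℤ} {q : ℤ} {I : C} [Injective I] (hF : Factors K q I)
    (ψ : DerivedCategory.Q.obj K ⟶ DerivedCategory.Q.obj (sgl q I)) : ψ = 0 := by
  obtain ⟨f, hf⟩ := (CochainComplex.IsKInjective.Qh_map_bijective
    ((HomotopyCategory.quotient _ _).obj K) (sgl q I)).2
    ((DerivedCategory.quotientCompQhIso C).hom.app K ≫ ψ ≫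
      (DerivedCategory.quotientCompQhIso C).inv.app (sgl q I))
  obtain ⟨φ, rfl⟩ := (HomotopyCategory.quotient _ _).map_surjective f
  obtain ⟨h⟩ := hF.homotopy φ
  rw [HomotopyCategory.eq_of_homotopy _ _ h, Functor.map_zero, Functor.map_zero] at hf
  have h2 : ((DerivedCategory.quotientCompQhIso C).hom.app K ≫ ψ ≫
      (DerivedCategory.quotientCompQhIso C).inv.app (sgl q I) :
      (HomotopyCategory.quotient C (ComplexShape.up ℤ) ⋙ DerivedCategory.Qh).obj K ⟶
      (HomotopyCategory.quotient C (ComplexShape.up ℤ) ⋙ DerivedCategory.Qh).obj (sgl q I)) = 0 :=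
    hf.symm
  rwa [Preadditive.IsIso.comp_left_eq_zero, Preadditive.IsIso.comp_right_eq_zero] at h2

lemma factors_of_eq_zero {K : CochainComplex C ℤ} {q : ℤ} {I : C} [Injective I]
    (h : ∀ ψ : DerivedCategory.Q.obj K ⟶ DerivedCategory.Q.obj (sgl q I), ψ = 0) :
    Factors K q I := by
  apply factors_of_homotopy
  intro φ
  have h1 : DerivedCategory.Q.map φ = 0 := h _
  have h2 : DerivedCategory.Qh.map ((HomotopyCategory.quotient _ _).map φ) = 0 := by
    have := DerivedCategory.quotientCompQhIso_hom_naturality φ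
    rw [h1, comp_zero] at this
    rw [← cancel_mono ((DerivedCategory.quotientCompQhIso C).hom.app (sgl q I)), this, zero_comp]
  have h3 : (HomotopyCategory.quotient _ _).map φ = 0 := by
    apply (CochainComplex.IsKInjective.Qh_map_bijective
      ((HomotopyCategory.quotient _ _).obj K) (sgl q I)).1
    rw [h2, Functor.map_zero]
  exact ⟨HomotopyCategory.homotopyOfEq _ _ (by rw [h3, Functor.map_zero])⟩

end Pool.Agent.MP8d69b9
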