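import Pool.Agent.MP8d69b9.Prj
import Pool.Agent.MP8d69b9.Single

open CategoryTheory MonoidalCategory Limits

noncomputable section

namespace Pool.Agent.MP8d69b9

attribute [local instance] Abelian.hasFiniteBiproducts

/-- The abelian monoidal category of algebraic representations of `H`. -/
abbrev RepAlg (H : Subgroup (CInf ≃ₗ[ℂ] CInf)) := (isAlgebraic H).FullSubcategory

section

variable (X Y : RepAlg GAInf)

lemma hasWt (X : RepAlg GAInf) : HasWt X.obj := (hasWt_invMod_of_isAlgebraic X.property).1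
lemma invMod (X : RepAlg GAInf) : InvMod X.obj := (hasWt_invMod_of_isAlgebraic X.property).2

/-- The linear map underlying a morphism. -/
abbrev lin {H : Subgroup (CInf ≃ₗ[ℂ] CInf)} {X Y : RepAlg H} (f : X ⟶ Y) : X.obj.V →ₗ[ℂ] Y.obj.V :=
  f.hom.hom.toLinearMap

lemma lin_comp {H : Subgroup (CInf ≃ₗ[ℂ] CInf)} {X Y Z : RepAlg H} (f : X ⟶ Y) (g : Y ⟶ Z) :
    lin (f ≫ g) = lin g ∘ₗ lin f := rfl

lemma lin_injective {H : Subgroup (CInf ≃ₗ[ℂ] CInf)} {X Y : RepAlg H} {f g : X ⟶ Y}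
    (h : lin f = lin g) : f = g := by
  apply ObjectProperty.hom_ext
  apply Rep.hom_ext
  exact Representation.IntertwiningMap.ext h

lemma lin_prj {X Y : RepAlg GAInf} (f : X ⟶ Y) (x : X.obj.V) :
    lin f (prj X.obj x) = prj Y.obj (lin f x) := prj_map (hasWt X) (hasWt Y) f.hom x

/-- Morphism to the unit given by a linear form. -/
def toU (X : RepAlg GAInf) (φ : X.obj.V →ₗ[ℂ] ℂ) : X ⟶ 𝟙_ (RepAlg GAInf) :=
  ObjectProperty.homMk (toUnit (invMod X) φ)

lemma lin_toU (φ : X.obj.V →ₗ[ℂ] ℂ) (x : X.obj.V) : lin (toU X φ) x = φ (prj X.obj x) := rfl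

/-- Morphism from a tensor product to the unit given by a bilinear form. -/
def toU₂ (b : X.obj.V →ₗ[ℂ] Y.obj.V →ₗ[ℂ] ℂ) : X ⊗ Y ⟶ 𝟙_ (RepAlg GAInf) :=
  ObjectProperty.homMk (toUnit₂ (invMod X) (invMod Y) b)

lemma lin_toU₂ (b : X.obj.V →ₗ[ℂ] Y.obj.V →ₗ[ℂ] ℂ) (x : X.obj.V) (y : Y.obj.V) :
    lin (toU₂ X Y b) (x ⊗ₜ[ℂ] y : TensorProduct ℂ X.obj.V Y.obj.V) =
      b (prj X.obj x) (prj Y.obj y) := rfl

end

instance injective_unit : Injective (𝟙_ (RepAlg GAInf)) where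
  factors {X Y} g f hf := by
    have : Mono ((isAlgebraic GAInf).ι.map f) := by
      have := (isAlgebraic GAInf).preservesMonomorphisms_ι_of_isNormalEpiCategory
      infer_instance
    have hinj : Function.Injective (lin f) := (Rep.mono_iff_injective f.hom).1 this
    obtain ⟨r, hr⟩ := LinearMap.exists_leftInverse_of_injective (lin f) (LinearMap.ker_eq_bot.2 hinj)
    refine ⟨toU Y (lin g ∘ₗ r), ?_⟩
    apply lin_injective
    ext x
    show (lin g) (r (prj Y.obj (lin f x))) = lin g x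
    rw [← lin_prj]
    have : r (lin f (prj X.obj x)) = prj X.obj x := LinearMap.congr_fun hr _
    rw [this]
    exact hom_unit_prj (hasWt X) g.hom x

variable (K L : CochainComplex (RepAlg GAInf) ℤ)

/-- underlying vector space in degree `i` -/
abbrev vec {H : Subgroup (CInf ≃ₗ[ℂ] CInf)} (K : CochainComplex (RepAlg H) ℤ) (i : ℤ) : Type :=
  (K.X i).obj.V

/-- underlying differentials -/
abbrev dl {H : Subgroup (CInf ≃ₗ[ℂ] CInf)} (K : CochainComplex (RepAlg H) ℤ) (i j : ℤ) :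
    vec K i →ₗ[ℂ] vec K j := lin (K.d i j)

lemma dl_dl {H : Subgroup (CInf ≃ₗ[ℂ] CInf)} (K : CochainComplex (RepAlg H) ℤ) (i j k : ℤ)
    (x : vec K i) : dl K j k (dl K i j x) = 0 := by
  have : lin (K.d i j ≫ K.d j k) x = 0 := by
    rw [K.d_comp_d]; rfl
  exact this

/-- the projection in degree `i` -/
abbrev pr (i : ℤ) : vec K i →ₗ[ℂ] vec K i := prj (K.X i).obj

variable {K L}

lemma dl_pr (i j : ℤ) (x : vec K i) : dl K i j (pr K i x) = pr K j (dl K i j x) := lin_prj _ x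

lemma pr_pr (i : ℤ) (x : vec K i) : pr K i (pr K i x) = pr K i x := prj_prj (hasWt _) x

/-- Exactness of weight zero parts in degree `q`, from the factorization property. -/
lemma exists_preimage {q : ℤ} (hF : Factors K q (𝟙_ (RepAlg GAInf))) (z : vec K q)
    (hz : pr K q z = z) (hdz : dl K q (q + 1) z = 0) :
    ∃ w : vec K (q - 1), dl K (q - 1) q (pr K (q - 1) w) = z := by
  by_contra hne
  let B : Submodule ℂ (vec K q) := LinearMap.range (dl K (q - 1) q ∘ₗ pr K (q - 1))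
  have hzB : z ∉ B := by
    rintro ⟨w, hw⟩
    exact hne ⟨w, hw⟩
  obtain ⟨φ, hφz, hφB⟩ := Submodule.exists_le_ker_of_notMem hzB
  obtain ⟨h, hh⟩ := hF (toU _ φ) (by
    apply lin_injective
    ext w
    show φ (prj _ (dl K (q - 1) q w)) = 0
    rw [← lin_prj]
    exact hφB ⟨w, rfl⟩)
  have h1 : lin (toU _ φ) z = φ z := by rw [lin_toU]; exact congrArg φ hz
  rw [← hh] at h1
  have h2 : lin (K.d q (q + 1) ≫ h) z = lin h (dl K q (q + 1) z) := rfl
  rw [h2, hdz, map_zero] at h1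
  exact hφz h1.symm

/-- A partial inverse of the differential. -/
lemma exists_tau {q : ℤ} (hF : Factors K q (𝟙_ (RepAlg GAInf))) :
    ∃ τ : vec K q →ₗ[ℂ] vec K (q - 1), (∀ x, pr K (q - 1) (τ x) = τ x) ∧
      ∀ z, pr K q z = z → dl K q (q + 1) z = 0 → dl K (q - 1) q (τ z) = z := by
  let D : vec K (q - 1) →ₗ[ℂ] vec K q := dl K (q - 1) q ∘ₗ pr K (q - 1)
  obtain ⟨σ, hσ⟩ := LinearMap.exists_rightInverse_of_surjective D.rangeRestrict
    (LinearMap.range_rangeRestrict D)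
  obtain ⟨T, hT⟩ := LinearMap.exists_extend σ
  refine ⟨pr K (q - 1) ∘ₗ T, fun x => pr_pr _ _, fun z hz hdz => ?_⟩
  obtain ⟨w, hw⟩ := exists_preimage hF z hz hdz
  have hzr : z ∈ LinearMap.range D := ⟨w, hw⟩
  have h1 : T z = σ ⟨z, hzr⟩ := LinearMap.congr_fun hT ⟨z, hzr⟩
  show D (T z) = z
  rw [h1]
  have h2 := LinearMap.congr_fun hσ ⟨z, hzr⟩
  exact congrArg Subtype.val h2

lemma exists_tau' {i j : ℤ} (hj : j + 1 = i) (hF : Factors K i (𝟙_ (RepAlg GAInf))) :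
    ∃ τ : vec K i →ₗ[ℂ] vec K j, (∀ x, pr K j (τ x) = τ x) ∧
      ∀ k, i + 1 = k → ∀ z, pr K i z = z → dl K i k z = 0 → dl K j i (τ z) = z := by
  obtain rfl : j = i - 1 := by omega
  obtain ⟨τ, h1, h2⟩ := exists_tau hF
  refine ⟨τ, h1, ?_⟩
  rintro k rfl z hz hdz
  exact h2 z hz hdz

/-- A linear contraction of the weight zero part of `K` in degrees `≥ 0`. -/
lemma exists_contraction (hF : ∀ q : ℤ, 0 ≤ q → Factors K q (𝟙_ (RepAlg GAInf))) :
    ∃ s : ∀ i j : ℤ, vec K i →ₗ[ℂ] vec K j,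
      (∀ i j x, s i j (pr K i x) = s i j x) ∧
      (∀ i j x, i < 0 → s i j x = 0) ∧
      (∀ i j k, 0 ≤ i → j + 1 = i → i + 1 = k → ∀ x,
        dl K j i (s i j x) + s k i (dl K i k x) = pr K i x) := by
  classical
  have key : ∀ i j : ℤ, ∃ τ : vec K i →ₗ[ℂ] vec K j, (∀ x, pr K j (τ x) = τ x) ∧
      (0 ≤ i → j + 1 = i → ∀ k, i + 1 = k → ∀ z, pr K i z = z → dl K i k z = 0 →
        dl K j i (τ z) = z) := by
    intro i j
    by_cases h : 0 ≤ i ∧ j + 1 = i
    · obtain ⟨τ, h1, h2⟩ := exists_tau' h.2 (hF i h.1)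
      exact ⟨τ, h1, fun _ _ => h2⟩
    · exact ⟨0, fun x => by simp, fun h1 h2 => absurd ⟨h1, h2⟩ h⟩
  choose τ hτ1 hτ2 using key
  refine ⟨fun i j => if 0 ≤ i then τ i j ∘ₗ (pr K i - τ (i + 1) i ∘ₗ dl K i (i + 1) ∘ₗ pr K i)
    else 0, ?_, ?_, ?_⟩
  · intro i j x
    by_cases hi : 0 ≤ i
    · simp only [if_pos hi, LinearMap.comp_apply, LinearMap.sub_apply, pr_pr]
    · simp only [if_neg hi, LinearMap.zero_apply]
  · intro i j x hi
    simp only [if_neg (not_le.2 hi), LinearMap.zero_apply]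
  · rintro i j k hi hj rfl x
    simp only [if_pos hi, if_pos (show (0 : ℤ) ≤ i + 1 by omega), LinearMap.comp_apply,
      LinearMap.sub_apply]
    have h1 : dl K j i (τ i j (pr K i x - τ (i + 1) i (dl K i (i + 1) (pr K i x)))) =
        pr K i x - τ (i + 1) i (dl K i (i + 1) (pr K i x)) := by
      apply hτ2 i j hi hj (i + 1) rfl
      · rw [map_sub, pr_pr, hτ1]
      · rw [map_sub, sub_eq_zero, eq_comm]
        apply hτ2 (i + 1) i (by omega) rfl (i + 1 + 1) rfl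
        · rw [← dl_pr, pr_pr]
        · exact dl_dl K _ _ _ _
    rw [h1]
    have h2 : dl K (i + 1) (i + 1 + 1) (pr K (i + 1) (dl K i (i + 1) x)) = 0 := by
      rw [← dl_pr]
      exact dl_dl K _ _ _ _
    rw [h2, map_zero, sub_zero, ← dl_pr, sub_add_cancel]

end Pool.Agent.MP8d69b9
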