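import Pool.Agent.MP8d69b9.Bounded

open CategoryTheory Limits

noncomputable section

namespace Pool.Agent.MP8d69b9

universe v u v' u' w

variable {C : Type u} [Category.{v} C] [Preadditive C]

variable {D : Type u'} [Category.{v'} D] [Preadditive D]

section

variable {J : Type w} {F : J → C} (c : Cofan F) (hc : IsColimit c)

open scoped Classical in
/-- The projections of a coproduct in a preadditive category. -/
def coprodπ (j : J) : c.pt ⟶ F j :=
  Cofan.IsColimit.desc hc (fun i => if h : i = j then eqToHom (by rw [h]) else 0)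

lemma inj_coprodπ_self (j : J) : c.inj j ≫ coprodπ c hc j = 𝟙 _ := by
  simp [coprodπ, Cofan.IsColimit.fac]

lemma inj_coprodπ_ne {i j : J} (h : i ≠ j) : c.inj i ≫ coprodπ c hc j = 0 := by
  simp [coprodπ, Cofan.IsColimit.fac, h]

lemma sum_coprodπ (S : Finset J) (hS : ∀ j ∉ S, IsZero (F j)) :
    ∑ j ∈ S, coprodπ c hc j ≫ c.inj j = 𝟙 c.pt := by
  classical
  apply Cofan.IsColimit.hom_ext hc
  intro i
  rw [Preadditive.comp_sum, Category.comp_id]
  by_cases hi : i ∈ S
  · rw [Finset.sum_eq_single i]
    · rw [← Category.assoc, inj_coprodπ_self, Category.id_comp]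
    · intro j _ hj
      rw [← Category.assoc, inj_coprodπ_ne c hc (Ne.symm hj), zero_comp]
    · intro h; exact absurd hi h
  · exact (hS i hi).eq_of_src _ _

/-- An additive functor preserves coproducts of families with finitely many nonzero members. -/
def isColimitMapCofan (G : C ⥤ D) [G.Additive] (S : Finset J) (hS : ∀ j ∉ S, IsZero (F j)) :
    IsColimit (Cofan.mk (G.obj c.pt) (fun j => G.map (c.inj j)) : Cofan (fun j => G.obj (F j))) :=
  Cofan.IsColimit.mk _ (fun s => ∑ j ∈ S, G.map (coprodπ c hc j) ≫ s.inj j)
    (by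
      classical
      intro s i
      rw [Preadditive.comp_sum]
      by_cases hi : i ∈ S
      · rw [Finset.sum_eq_single i]
        · rw [cofan_mk_inj, ← Category.assoc, ← G.map_comp, inj_coprodπ_self, G.map_id,
            Category.id_comp]
        · intro j _ hj
          rw [cofan_mk_inj, ← Category.assoc, ← G.map_comp, inj_coprodπ_ne c hc (Ne.symm hj),
            G.map_zero, zero_comp]
        · intro h; exact absurd hi h
      · exact (G.map_isZero (hS i hi)).eq_of_src _ _)
    (by
      intro s m hm
      have h1 : 𝟙 (G.obj c.pt) = ∑ j ∈ S, G.map (coprodπ c hc j) ≫ G.map (c.inj j) := by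
        rw [← G.map_id, ← sum_coprodπ c hc S hS, G.map_sum]
        simp only [G.map_comp]
      rw [← Category.id_comp m]
      change 𝟙 (G.obj c.pt) ≫ m = _
      rw [h1, Preadditive.sum_comp]
      refine Finset.sum_congr rfl fun j _ => ?_
      rw [Category.assoc, ← hm j]
      rfl)

end

end Pool.Agent.MP8d69b9
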