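import Mathlib

/-!
# Algebraic representations of subgroups of `GL(∞)` and bounded derived categories

Definitions for the problem MP_8d69b9_al.
-/

open CategoryTheory MonoidalCategory Limits

noncomputable section

namespace Pool.Agent.MP8d69b9

/-! ### The groups -/

/-- `V = C^∞ = ⋃ C^d`, the complex vector space of finitely supported sequences.
The basis vector `e_{i+1}` of the problem is `Finsupp.single i 1`, so `e_1` is `Finsupp.single 0 1`. -/
abbrev CInf : Type := ℕ →₀ ℂ

/-- The `(i, j)` entry of the (infinite) matrix of a linear automorphism of `C^∞`. -/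
def entry (g : CInf ≃ₗ[ℂ] CInf) (i j : ℕ) : ℂ := g (Finsupp.single j 1) i

/-- The infinite matrix of `g` differs from the identity matrix in only finitely many entries. -/
def FinitelyPerturbed (g : CInf ≃ₗ[ℂ] CInf) : Prop :=
  {p : ℕ × ℕ | entry g p.1 p.2 ≠ entry 1 p.1 p.2}.Finite

/-- Auxiliary description of `FinitelyPerturbed`. -/
def GoodAt (N : ℕ) (g : CInf ≃ₗ[ℂ] CInf) : Prop :=
  (∀ j ≥ N, g (Finsupp.single j 1) = Finsupp.single j 1) ∧ ∀ x : CInf, ∀ i ≥ N, g x i = x i

lemma GoodAt.mono {N M : ℕ} (h : N ≤ M) {g : CInf ≃ₗ[ℂ] CInf} (hg : GoodAt N g) : GoodAt M g :=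
  ⟨fun j hj => hg.1 j (h.trans hj), fun x i hi => hg.2 x i (h.trans hi)⟩

lemma GoodAt.mul {N : ℕ} {g h : CInf ≃ₗ[ℂ] CInf} (hg : GoodAt N g) (hh : GoodAt N h) :
    GoodAt N (g * h) := by
  refine ⟨fun j hj => ?_, fun x i hi => ?_⟩
  · rw [LinearEquiv.mul_apply, hh.1 j hj, hg.1 j hj]
  · rw [LinearEquiv.mul_apply, hg.2 _ i hi, hh.2 _ i hi]

lemma GoodAt.one (N : ℕ) : GoodAt N 1 := ⟨fun _ _ => rfl, fun _ _ _ => rfl⟩

lemma GoodAt.inv {N : ℕ} {g : CInf ≃ₗ[ℂ] CInf} (hg : GoodAt N g) : GoodAt N g⁻¹ := by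
  have key : ∀ x, g (g⁻¹ x) = x := fun x => g.apply_symm_apply x
  refine ⟨fun j hj => ?_, fun x i hi => ?_⟩
  · apply g.injective
    rw [key, hg.1 j hj]
  · rw [← hg.2 (g⁻¹ x) i hi, key]

lemma finitelyPerturbed_iff (g : CInf ≃ₗ[ℂ] CInf) : FinitelyPerturbed g ↔ ∃ N, GoodAt N g := by
  constructor
  · intro h
    obtain ⟨N, hN⟩ : ∃ N : ℕ, ∀ p ∈ {p : ℕ × ℕ | entry g p.1 p.2 ≠ entry 1 p.1 p.2},
        p.1 < N ∧ p.2 < N := by
      refine ⟨(h.toFinset.sup (fun p => max p.1 p.2)) + 1, fun p hp => ?_⟩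
      have := Finset.le_sup (f := fun p : ℕ × ℕ => max p.1 p.2) (h.mem_toFinset.2 hp)
      simp only [sup_le_iff] at this
      omega
    have h1 : ∀ i j, (N ≤ i ∨ N ≤ j) → g (Finsupp.single j 1) i = (Finsupp.single j (1 : ℂ) : CInf) i := by
      intro i j hij
      by_contra hne
      have := hN (i, j) hne
      simp only at this
      omega
    refine ⟨N, fun j hj => ?_, fun x i hi => ?_⟩
    · ext i
      exact h1 i j (Or.inr hj)
    · induction x using Finsupp.induction_linear with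
      | zero => simp
      | add x y hx hy => simp [hx, hy]
      | single j c =>
        have : (Finsupp.single j c : CInf) = c • Finsupp.single j 1 := by simp
        rw [this, map_smul, Finsupp.smul_apply, Finsupp.smul_apply, h1 i j (Or.inl hi)]
  · rintro ⟨N, hN⟩
    refine Set.Finite.subset ((Set.finite_lt_nat N).prod (Set.finite_lt_nat N)) ?_
    rintro ⟨i, j⟩ hij
    simp only [Set.mem_ofPred_eq, entry, LinearEquiv.coe_one, id_eq] at hij
    simp only [Set.mem_prod, Set.mem_ofPred_eq]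
    constructor
    · by_contra hi
      exact hij (hN.2 _ i (not_lt.1 hi))
    · by_contra hj
      exact hij (by rw [hN.1 j (not_lt.1 hj)])

lemma FinitelyPerturbed.mul {g h : CInf ≃ₗ[ℂ] CInf} (hg : FinitelyPerturbed g)
    (hh : FinitelyPerturbed h) : FinitelyPerturbed (g * h) := by
  obtain ⟨N, hN⟩ := (finitelyPerturbed_iff g).1 hg
  obtain ⟨M, hM⟩ := (finitelyPerturbed_iff h).1 hh
  exact (finitelyPerturbed_iff _).2
    ⟨max N M, (hN.mono (le_max_left _ _)).mul (hM.mono (le_max_right _ _))⟩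

lemma FinitelyPerturbed.one : FinitelyPerturbed 1 := (finitelyPerturbed_iff _).2 ⟨0, GoodAt.one 0⟩

lemma FinitelyPerturbed.inv {g : CInf ≃ₗ[ℂ] CInf} (hg : FinitelyPerturbed g) :
    FinitelyPerturbed g⁻¹ := by
  obtain ⟨N, hN⟩ := (finitelyPerturbed_iff g).1 hg
  exact (finitelyPerturbed_iff _).2 ⟨N, hN.inv⟩

/-- `g` is an element of `GA(∞)`: an element of `GL(∞)` (an invertible matrix that differs from the
identity in only finitely many entries) which stabilizes the linear form `t = e_1^*` on `C^∞`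
(`t v` is the coordinate of `v` at the first basis vector, i.e. `v 0`). -/
def IsGA (g : CInf ≃ₗ[ℂ] CInf) : Prop := FinitelyPerturbed g ∧ ∀ v : CInf, (g v) 0 = v 0

/-- `g` is an element of `𝔖(∞)`: an element of `GL(∞)` which permutes the basis vectors `e_i` (so
it fixes all but finitely many of them). -/
def IsSym (g : CInf ≃ₗ[ℂ] CInf) : Prop :=
  FinitelyPerturbed g ∧ ∃ σ : Equiv.Perm ℕ, ∀ i, g (Finsupp.single i 1) = Finsupp.single (σ i) 1

/-- `GA(∞)`: the stabilizer in `GL(∞)` of the linear form `t = e_1^*` on `C^∞`. -/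
def GAInf : Subgroup (CInf ≃ₗ[ℂ] CInf) where
  carrier := {g | IsGA g}
  mul_mem' := by
    rintro g h ⟨hg, hg'⟩ ⟨hh, hh'⟩
    exact ⟨hg.mul hh, fun v => by rw [LinearEquiv.mul_apply, hg', hh']⟩
  one_mem' := ⟨FinitelyPerturbed.one, fun _ => rfl⟩
  inv_mem' := by
    rintro g ⟨hg, hg'⟩
    refine ⟨hg.inv, fun v => ?_⟩
    rw [← hg' (g⁻¹ v)]
    congr 1
    exact g.apply_symm_apply v

/-- `𝔖(∞)`: the group of permutations of the basis vectors `e_i` that fix all but finitely many
of them. -/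
def SInf : Subgroup (CInf ≃ₗ[ℂ] CInf) where
  carrier := {g | IsSym g}
  mul_mem' := by
    rintro g h ⟨hg, σ, hσ⟩ ⟨hh, τ, hτ⟩
    exact ⟨hg.mul hh, σ * τ, fun i => by
      rw [LinearEquiv.mul_apply, hτ, hσ]; rfl⟩
  one_mem' := ⟨FinitelyPerturbed.one, 1, fun _ => rfl⟩
  inv_mem' := by
    rintro g ⟨hg, σ, hσ⟩
    refine ⟨hg.inv, σ⁻¹, fun i => ?_⟩
    apply g.injective
    rw [hσ, show g (g⁻¹ (Finsupp.single i 1)) = Finsupp.single i 1 from g.apply_symm_apply _]
    simp

/-! ### The representation categories -/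

variable (H : Subgroup (CInf ≃ₗ[ℂ] CInf))

/-- The group `H` (a group of automorphisms of `V = C^∞`), as a type. -/
def Grp : Type := H

instance : Group (Grp H) := Subgroup.toGroup H

/-- The standard representation of a group `H` of automorphisms of `V = C^∞` on `V`. -/
def stdRep : Rep.{0} ℂ (Grp H) :=
  Rep.of
    { toFun := fun g => g.1.toLinearMap
      map_one' := rfl
      map_mul' := fun _ _ => rfl }

/-- The representation `V^{⊗ n}` of `H`. -/
def tensorPow : ℕ → Rep.{0} ℂ (Grp H)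
  | 0 => 𝟙_ _
  | n + 1 => stdRep H ⊗ tensorPow n

attribute [local instance] Abelian.hasFiniteBiproducts

/-- A representation of `H` is *algebraic* if it is a subquotient of a finite direct sum of the
representations `V^{⊗ n}`: it is a quotient of a subobject `N` of such a direct sum.

For `H = GA(∞)` these are the polynomial representations of `GA(∞)`, and for `H = 𝔖(∞)` they are
the algebraic representations of `𝔖(∞)`. -/
def isAlgebraic : ObjectProperty (Rep.{0} ℂ (Grp H)) := fun M =>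
  ∃ (J : Type) (_ : Fintype J) (n : J → ℕ) (N : Rep.{0} ℂ (Grp H))
    (i : N ⟶ ⨁ fun j => tensorPow H (n j)) (p : N ⟶ M), Mono i ∧ Epi p

end Pool.Agent.MP8d69b9
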