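import Pool.Agent.MP8d69b9.QuasiIso
import Pool.Agent.MP8d69b9.Contract

open CategoryTheory Limits MonoidalCategory HomologicalComplex

noncomputable section

namespace Pool.Agent.MP8d69b9

variable (H : Subgroup (CInf ≃ₗ[ℂ] CInf))

instance ι_preservesHomology : (isAlgebraic H).ι.PreservesHomology where
  preservesKernels _ _ f := (isAlgebraic H).preservesKernels_ι f
  preservesCokernels _ _ f := (isAlgebraic H).preservesCokernels_ι f

instance ι_preservesFiniteLimits : PreservesFiniteLimits (isAlgebraic H).ι :=
  (isAlgebraic H).ι.preservesFiniteLimits_of_preservesHomology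

instance ι_preservesFiniteColimits : PreservesFiniteColimits (isAlgebraic H).ι :=
  (isAlgebraic H).ι.preservesFiniteColimits_of_preservesHomology

/-- The forgetful functor from algebraic representations to vector spaces. -/
abbrev forgetV : RepAlg H ⥤ ModuleCat.{0} ℂ :=
  (isAlgebraic H).ι ⋙ forget₂ (Rep.{0} ℂ (Grp H)) (ModuleCat.{0} ℂ)

instance forgetV_preservesHomology : (forgetV H).PreservesHomology := by
  have h1 : PreservesFiniteLimits (forgetV H) := comp_preservesFiniteLimits _ _
  have h2 : PreservesFiniteColimits (forgetV H) := comp_preservesFiniteColimits _ _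
  infer_instance

lemma injective_moduleCat (X : ModuleCat.{0} ℂ) : Injective X where
  factors {A B} g f hf := by
    have hinj : Function.Injective f := (ModuleCat.mono_iff_injective f).1 hf
    obtain ⟨r, hr⟩ := LinearMap.exists_leftInverse_of_injective f.hom (LinearMap.ker_eq_bot.2 hinj)
    refine ⟨ModuleCat.ofHom (g.hom ∘ₗ r), ?_⟩
    ext x
    have := LinearMap.congr_fun hr x
    simp only [LinearMap.comp_apply, LinearMap.id_apply] at this
    simp [this]

/-- The forgetful functor is compatible with tensor products. -/
def forgetVTensor : TensorFunctorData (forgetV H) where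
  μ X Y := Iso.refl _
  left f Y := rfl
  right X Y Y' f := rfl

/-- Tensoring bounded complexes of algebraic representations preserves quasi-isomorphisms. -/
lemma quasiIso_tensorHom_repAlg {K K' L L' : CochainComplex (RepAlg H) ℤ}
    (hK : IsBoundedComplex K) (hK' : IsBoundedComplex K') (hL : IsBoundedComplex L)
    (hL' : IsBoundedComplex L') [HasTensor K L] [HasTensor K' L'] (f : K ⟶ K') (g : L ⟶ L')
    [QuasiIso f] [QuasiIso g] : QuasiIso (tensorHom f g) :=
  quasiIso_tensorHom injective_moduleCat (forgetVTensor H) hK hK' hL hL' f g

end Pool.Agent.MP8d69b9
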