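import Pool.Agent.MP8d69b9.Contract

open CategoryTheory MonoidalCategory Limits

noncomputable section

namespace Pool.Agent.MP8d69b9

attribute [local instance] Abelian.hasFiniteBiproducts

/-- Sum of the coordinates. -/
def sumMap : CInf →ₗ[ℂ] ℂ := Finsupp.linearCombination ℂ (fun _ => (1 : ℂ))

lemma sumMap_single (i : ℕ) (a : ℂ) : sumMap (Finsupp.single i a) = a := by
  simp [sumMap]

/-- The standard bilinear form. -/
def dot : CInf →ₗ[ℂ] CInf →ₗ[ℂ] ℂ :=
  Finsupp.linearCombination ℂ (fun i => (Finsupp.lapply i : CInf →ₗ[ℂ] ℂ))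

lemma dot_single (i : ℕ) (a : ℂ) (y : CInf) : dot (Finsupp.single i a) y = a * y i := by
  simp [dot]

lemma sumMap_perm {g : CInf ≃ₗ[ℂ] CInf} (hg : g ∈ SInf) (v : CInf) : sumMap (g v) = sumMap v := by
  obtain ⟨-, σ, hσ⟩ := hg
  induction v using Finsupp.induction_linear with
  | zero => simp
  | add x y hx hy => rw [map_add, map_add, map_add, hx, hy]
  | single i a =>
    have : (Finsupp.single i a : CInf) = a • Finsupp.single i 1 := by simp
    rw [this, map_smul, hσ, map_smul, map_smul, sumMap_single, sumMap_single]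

lemma dot_perm {g : CInf ≃ₗ[ℂ] CInf} (hg : g ∈ SInf) (v w : CInf) :
    dot (g v) (g w) = dot v w := by
  obtain ⟨-, σ, hσ⟩ := hg
  have hs : ∀ (i : ℕ) (a : ℂ), g (Finsupp.single i a) = Finsupp.single (σ i) a := by
    intro i a
    have : (Finsupp.single i a : CInf) = a • Finsupp.single i 1 := by simp
    rw [this, map_smul, hσ]; simp
  induction v using Finsupp.induction_linear with
  | zero => simp
  | add x y hx hy =>
    simp only [map_add, LinearMap.add_apply, hx, hy]
  | single i a =>
    rw [hs, dot_single, dot_single]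
    congr 1
    induction w using Finsupp.induction_linear with
    | zero => simp
    | add x y hx hy => rw [map_add, Finsupp.add_apply, Finsupp.add_apply, hx, hy]
    | single j b =>
      rw [hs, Finsupp.single_apply, Finsupp.single_apply]
      simp [σ.injective.eq_iff]

lemma ker_sumMap_le (g : Grp SInf) :
    LinearMap.ker sumMap ≤ (LinearMap.ker sumMap).comap ((stdRep SInf).ρ g) := fun v hv => by
  show sumMap (g.1 v) = 0
  rw [sumMap_perm g.2]
  exact hv

/-- The representation of `𝔖(∞)` on vectors with coordinate sum zero. -/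
def LRep : Rep.{0} ℂ (Grp SInf) :=
  (stdRep SInf).subrepresentation (LinearMap.ker sumMap) ker_sumMap_le

lemma isAlgebraic_stdRep (H : Subgroup (CInf ≃ₗ[ℂ] CInf)) : isAlgebraic H (stdRep H) :=
  (isAlgebraic H).prop_of_iso (ρ_ (stdRep H)) (isAlgebraic_tensorPow H 1)

lemma isAlgebraic_LRep : isAlgebraic SInf LRep := by
  let ι : LRep ⟶ stdRep SInf := (stdRep SInf).subtype (LinearMap.ker sumMap) ker_sumMap_le
  have : Mono ι := by
    rw [Rep.mono_iff_injective]
    exact Subtype.val_injective
  exact isAlgebraic_of_mono SInf ι (isAlgebraic_stdRep SInf)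

/-- The kernel of the augmentation `V → 1`, as an algebraic representation of `𝔖(∞)`. -/
def LObj : RepAlg SInf := ⟨LRep, isAlgebraic_LRep⟩

/-- The element of `𝔖(∞)` swapping two basis vectors. -/
def swapEl (i j : ℕ) : Grp SInf :=
  ⟨Finsupp.domLCongr (Equiv.swap i j), by
    refine ⟨(finitelyPerturbed_iff _).2 ⟨max i j + 1, fun k hk => ?_, fun x k hk => ?_⟩,
      Equiv.swap i j, fun k => ?_⟩
    · rw [Finsupp.domLCongr_single, Equiv.swap_apply_of_ne_of_ne (by omega) (by omega)]
    · rw [Finsupp.domLCongr_apply, Finsupp.domCongr_apply, Finsupp.equivMapDomain_apply,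
        Equiv.symm_swap, Equiv.swap_apply_of_ne_of_ne (by omega) (by omega)]
    · rw [Finsupp.domLCongr_single]⟩

/-- The vector `e_i - e_0`. -/
def diffVec (i : ℕ) : LinearMap.ker sumMap :=
  ⟨Finsupp.single i 1 - Finsupp.single 0 1, by
    rw [LinearMap.mem_ker, map_sub, sumMap_single, sumMap_single, sub_self]⟩

lemma linear_form_zero (φ : LinearMap.ker sumMap →ₗ[ℂ] ℂ)
    (hφ : ∀ (g : Grp SInf) (x y : LinearMap.ker sumMap), g.1 x = y → φ y = φ x) :
    φ = 0 := by
  have h1 : ∀ i, φ (diffVec i) = 0 := by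
    intro i
    have h2 := hφ (swapEl i 0) (diffVec i) (-(diffVec i)) (by
      show (Finsupp.domLCongr (Equiv.swap i 0) : CInf ≃ₗ[ℂ] CInf)
        (Finsupp.single i 1 - Finsupp.single 0 1) = -(Finsupp.single i 1 - Finsupp.single 0 1)
      rw [map_sub, Finsupp.domLCongr_single, Finsupp.domLCongr_single]
      simp)
    have h3 : φ (-(diffVec i)) = - φ (diffVec i) := map_neg φ (diffVec i)
    rw [h3] at h2
    have h6 : (2 : ℂ) * φ (diffVec i) = 0 := by linear_combination -h2
    simpa using h6
  ext v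
  have hv : v = ∑ i ∈ v.1.support, v.1 i • diffVec i := by
    apply Subtype.ext
    have hs : sumMap v.1 = 0 := v.2
    have h3 : (v.1 : CInf) = ∑ i ∈ v.1.support, Finsupp.single i (v.1 i) :=
      (Finsupp.sum_single v.1).symm
    have h4 : (∑ i ∈ v.1.support, v.1 i) = 0 := by
      rw [h3, map_sum] at hs
      simpa only [sumMap_single] using hs
    rw [Submodule.coe_sum]
    have h5 : ∀ i ∈ v.1.support, ((v.1 i • diffVec i : LinearMap.ker sumMap) : CInf) =
        Finsupp.single i (v.1 i) - v.1 i • Finsupp.single 0 1 := by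
      intro i _
      show v.1 i • (Finsupp.single i 1 - Finsupp.single 0 1 : CInf) = _
      rw [smul_sub]; simp
    rw [Finset.sum_congr rfl h5, Finset.sum_sub_distrib, ← h3, ← Finset.sum_smul, h4, zero_smul,
      sub_zero]
  rw [hv, map_sum]
  simp [h1]

lemma LRep_hom_zero (f : LRep ⟶ 𝟙_ (Rep.{0} ℂ (Grp SInf))) : f = 0 := by
  apply Rep.hom_ext
  apply Representation.IntertwiningMap.ext
  apply linear_form_zero
  intro g x y hxy
  have h := Rep.hom_comm_apply f g x
  have h2 : LRep.ρ g x = y := Subtype.ext hxy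
  rw [h2] at h
  exact h

/-- The form `x ⊗ y ↦ ∑ x_i y_i` on `L`. -/
def dotHom : LRep ⊗ LRep ⟶ 𝟙_ (Rep.{0} ℂ (Grp SInf)) :=
  Rep.ofHom ⟨TensorProduct.lift ((dot ∘ₗ (LinearMap.ker sumMap).subtype).compl₂
    (LinearMap.ker sumMap).subtype), fun g => by
    apply TensorProduct.ext'
    intro x y
    exact dot_perm g.2 x.1 y.1⟩

lemma dotHom_ne_zero : dotHom ≠ 0 := by
  intro h
  have h1 : dotHom.hom (diffVec 1 ⊗ₜ[ℂ] diffVec 1 :
    TensorProduct ℂ (LinearMap.ker sumMap) (LinearMap.ker sumMap)) = (0 : ℂ) := by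
    rw [h]; rfl
  have h2 : dot (Finsupp.single 1 1 - Finsupp.single 0 1) (Finsupp.single 1 1 - Finsupp.single 0 1)
    = 0 := h1
  simp only [map_sub, LinearMap.sub_apply, dot_single, Finsupp.single_apply] at h2
  norm_num at h2

end Pool.Agent.MP8d69b9
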