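import Pool.Agent.MP8d69b9.Contract
import Pool.Agent.MP8d69b9.Bilin

open CategoryTheory MonoidalCategory Limits HomologicalComplex

noncomputable section

namespace Pool.Agent.MP8d69b9

attribute [local instance] Abelian.hasFiniteBiproducts

section

variable {H : Subgroup (CInf ≃ₗ[ℂ] CInf)} (K L : CochainComplex (RepAlg H) ℤ) [HasTensor K L]

lemma ι_d (i i' j j' n n' : ℤ) (hi : i + 1 = i') (hj : j + 1 = j') (h : i + j = n)
    (h' : n + 1 = n') :
    ιTensorObj K L i j n h ≫ (tensorObj K L).d n n' =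
      (K.d i i' ▷ L.X j) ≫ ιTensorObj K L i' j n' (by omega) +
      i.negOnePow • (K.X i ◁ L.d j j') ≫ ιTensorObj K L i j' n' (by omega) := by
  rw [mapBifunctor.d_eq, Preadditive.comp_add, mapBifunctor.ι_D₁, mapBifunctor.ι_D₂,
    mapBifunctor.d₁_eq K L (curriedTensor _) (ComplexShape.up ℤ)
      (show (ComplexShape.up ℤ).Rel i i' from hi) j n' (by simp; omega),
    mapBifunctor.d₂_eq K L (curriedTensor _) (ComplexShape.up ℤ) i
      (show (ComplexShape.up ℤ).Rel j j' from hj) n' (by simp; omega)]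
  simp

end

section

variable {K L : CochainComplex (RepAlg GAInf) ℤ} [HasTensor K L]

lemma lin_zsmul {H : Subgroup (CInf ≃ₗ[ℂ] CInf)} {X Y : RepAlg H} (u : ℤˣ) (f : X ⟶ Y)
    (x : X.obj.V) : lin (u • f) x = ((u : ℤ) : ℂ) • lin f x := by
  rcases Int.units_eq_one_or u with rfl | rfl
  · simp
  · have : lin (-f) x = - lin f x := rfl
    simp [this]

lemma lin_add {H : Subgroup (CInf ≃ₗ[ℂ] CInf)} {X Y : RepAlg H} (f g : X ⟶ Y)
    (x : X.obj.V) : lin (f + g) x = lin f x + lin g x := rfl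

/-- The bilinear form of a component of `g`. -/
def comp₂ (g : (tensorObj K L).X 0 ⟶ 𝟙_ (RepAlg GAInf)) (i j : ℤ) :
    vec K i →ₗ[ℂ] vec L j →ₗ[ℂ] ℂ :=
  if h : i + j = 0 then TensorProduct.curry (lin (ιTensorObj K L i j 0 h ≫ g)) else 0

variable (g : (tensorObj K L).X 0 ⟶ 𝟙_ (RepAlg GAInf))

lemma comp₂_apply (i j : ℤ) (h : i + j = 0) (x : vec K i) (y : vec L j) :
    comp₂ g i j x y = lin (ιTensorObj K L i j 0 h ≫ g)
      (x ⊗ₜ[ℂ] y : TensorProduct ℂ (vec K i) (vec L j)) := by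
  rw [comp₂, dif_pos h]; rfl

lemma comp₂_pr_left (i j : ℤ) (x : vec K i) (y : vec L j) :
    comp₂ g i j (pr K i x) y = comp₂ g i j x y := by
  by_cases h : i + j = 0
  · rw [comp₂_apply g i j h, comp₂_apply g i j h]
    exact hom_tensor_prj_left (hasWt _) (hasWt _) (ιTensorObj K L i j 0 h ≫ g).hom x y
  · simp [comp₂, h]

lemma comp₂_pr_right (i j : ℤ) (x : vec K i) (y : vec L j) :
    comp₂ g i j x (pr L j y) = comp₂ g i j x y := by
  by_cases h : i + j = 0
  · rw [comp₂_apply g i j h, comp₂_apply g i j h]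
    exact hom_tensor_prj_right (hasWt _) (hasWt _) (ιTensorObj K L i j 0 h ≫ g).hom x y
  · simp [comp₂, h]

lemma comp₂_cocycle (hg : (tensorObj K L).d (0 - 1) 0 ≫ g = 0) (i i' j j' : ℤ) (hi : i + 1 = i')
    (hj : j + 1 = j') (h : i + j = 0 - 1) (x : vec K i) (y : vec L j) :
    comp₂ g i' j (dl K i i' x) y + ((i.negOnePow : ℤ) : ℂ) • comp₂ g i j' x (dl L j j' y) = 0 := by
  have h1 : ιTensorObj K L i j (0 - 1) h ≫ (tensorObj K L).d (0 - 1) 0 ≫ g = 0 := by
    rw [hg, comp_zero]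
  rw [← Category.assoc, ι_d K L i i' j j' (0 - 1) 0 hi hj h (by norm_num), Preadditive.add_comp,
    Linear.units_smul_comp, Category.assoc, Category.assoc] at h1
  have h2 := congrArg (fun f : (K.X i ⊗ L.X j ⟶ 𝟙_ (RepAlg GAInf)) =>
    lin f (x ⊗ₜ[ℂ] y : TensorProduct ℂ (vec K i) (vec L j))) h1
  rw [comp₂_apply g i' j (by omega), comp₂_apply g i j' (by omega)]
  rw [lin_add, lin_zsmul] at h2
  exact h2

end

/-- If maps from `K` and `L` to the unit placed in degrees `≥ 0` vanish in the derived category,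
then so do maps from `K ⊗ L` to the unit. -/
lemma factors_tensor (K L : CochainComplex (RepAlg GAInf) ℤ) [HasTensor K L]
    (hK : ∀ q : ℤ, 0 ≤ q → Factors K q (𝟙_ (RepAlg GAInf)))
    (hL : ∀ q : ℤ, 0 ≤ q → Factors L q (𝟙_ (RepAlg GAInf))) :
    Factors (tensorObj K L) 0 (𝟙_ (RepAlg GAInf)) := by
  intro g hg
  obtain ⟨s, hs, hs0, hs1⟩ := exists_contraction hK
  obtain ⟨t, ht, -, ht1⟩ := exists_contraction hL
  have hcomm := hom₂_comm (A := vec K) (B := vec L) (dA := dl K) (dB := dl L) (pA := pr K)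
    (pB := pr L) (s := s) (t := t) (F := comp₂ g) (comp₂_pr_left g) (comp₂_pr_right g)
    dl_pr (dl_dl K) (comp₂_cocycle g hg) hs ht hs0 hs1 ht1
  refine ⟨mapBifunctorDesc (fun i j _ => toU₂ (K.X i) (L.X j) (hom₂ (dl K) s t (comp₂ g) i j)), ?_⟩
  refine mapBifunctor.hom_ext (fun i j hij => ?_)
  have hij' : i + j = 0 := hij
  rw [← Category.assoc]
  erw [ι_d K L i (i + 1) j (j + 1) 0 (0 + 1) rfl rfl hij' rfl]
  rw [Preadditive.add_comp, Linear.units_smul_comp, Category.assoc, Category.assoc]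
  erw [ι_mapBifunctorDesc, ι_mapBifunctorDesc]
  apply lin_injective
  apply TensorProduct.ext'
  intro x y
  rw [lin_add, lin_zsmul]
  have := hcomm i (i + 1) j (j + 1) rfl rfl hij' x y
  rw [comp₂_apply g i j hij'] at this
  exact this

end Pool.Agent.MP8d69b9
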