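import Pool.Agent.MP8d69b9.TensorD
import Pool.Agent.MP8d69b9.AlgRep
import Pool.Agent.MP8d69b9.Forget
import Pool.Agent.MP8d69b9.SSide
import Pool.Agent.MP8d69b9.Tensor

open CategoryTheory Limits MonoidalCategory HomologicalComplex DerivedCategory

noncomputable section

namespace Pool.Agent.MP8d69b9

universe w w₁ w₂ v u

section

variable {C : Type u} [Category.{v} C] [Abelian C] [HasDerivedCategory.{w} C]

lemma sg_shift (q : ℤ) (M : C) : Nonempty ((sg q M)⟦q⟧ ≅ sg 0 M) :=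
  ⟨Bounded.ι.preimageIso (((Bounded.ι (C := C)).commShiftIso q).app (sg q M) ≪≫
    ((DerivedCategory.singleFunctors C).shiftIso q 0 q (add_zero q)).app M)⟩

variable [MonoidalCategory C] [MonoidalPreadditive C]

/-- The tensor product of two complexes concentrated in degree `0`, mapping to an object in
degree `0`. -/
def fam {X Y Z : C} (g : X ⊗ Y ⟶ Z) (i j : ℤ) (_ : i + j = 0) :
    (sgl 0 X).X i ⊗ (sgl 0 Y).X j ⟶ Z :=
  if h : i = 0 ∧ j = 0 then
    ((singleObjXIsoOfEq (ComplexShape.up ℤ) 0 X i h.1).hom ⊗ₘ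
      (singleObjXIsoOfEq (ComplexShape.up ℤ) 0 Y j h.2).hom) ≫ g else 0

omit [HasDerivedCategory C] [MonoidalCategory C] [MonoidalPreadditive C] in
lemma bounded_sgl (q : ℤ) (X : C) : IsBoundedComplex (sgl q X) :=
  ⟨q, q, fun i hi => isZero_single_obj_X _ _ _ _ (by omega)⟩

omit [HasDerivedCategory C] in
lemma isZero_tensor_sgl (X Y : C) [HasTensor (sgl 0 X) (sgl 0 Y)] (n : ℤ) (hn : n ≠ 0) :
    IsZero ((tensorObj (sgl 0 X) (sgl 0 Y)).X n) := by
  rw [IsZero.iff_id_eq_zero]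
  refine tensor_hom_ext (fun i j hij => ?_)
  refine IsZero.eq_of_src ?_ _ _
  by_cases hi : i = 0
  · exact isZero_tensor_right (isZero_single_obj_X _ _ _ _ (by omega))
  · exact isZero_tensor_left (isZero_single_obj_X _ _ _ _ hi)

/-- A nonzero morphism `X ⊗ Y ⟶ Z` gives a nonzero morphism in the derived category. -/
lemma exists_ne_zero {X Y Z : C} (g : X ⊗ Y ⟶ Z) (hg : g ≠ 0)
    [HasTensor (sgl 0 X) (sgl 0 Y)] :
    ∃ ψ : Q.obj (tensorObj (sgl 0 X) (sgl 0 Y)) ⟶ (DerivedCategory.singleFunctor C 0).obj Z,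
      ψ ≠ 0 := by
  let φ : tensorObj (sgl 0 X) (sgl 0 Y) ⟶ sgl 0 Z :=
    HomologicalComplex.mkHomToSingle (tDesc _ _ (fam g)) (by
      intro i hi
      refine (isZero_tensor_sgl X Y i ?_).eq_of_src _ _
      simp only [ComplexShape.up_Rel] at hi; omega)
  have hφ : φ ≠ 0 := by
    intro h
    have h1 : φ.f 0 ≫ (singleObjXSelf (ComplexShape.up ℤ) 0 Z).hom = 0 := by rw [h]; simp
    have h2 : ιTensorObj (sgl 0 X) (sgl 0 Y) 0 0 0 (by simp) ≫ tDesc _ _ (fam g) = 0 := by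
      have h3 : φ.f 0 ≫ (singleObjXSelf (ComplexShape.up ℤ) 0 Z).hom = tDesc _ _ (fam g) := by
        simp [φ]
      rw [← h3, h1, comp_zero]
    rw [ι_tDesc, fam, dif_pos ⟨rfl, rfl⟩] at h2
    apply hg
    rwa [Preadditive.IsIso.comp_left_eq_zero] at h2
  have i1 : CochainComplex.IsStrictlyGE (tensorObj (sgl 0 X) (sgl 0 Y)) 0 := by
    rw [CochainComplex.isStrictlyGE_iff]
    exact fun i hi => isZero_tensor_sgl X Y i (by omega)
  have i2 : CochainComplex.IsStrictlyLE (tensorObj (sgl 0 X) (sgl 0 Y)) 0 := by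
    rw [CochainComplex.isStrictlyLE_iff]
    exact fun i hi => isZero_tensor_sgl X Y i (by omega)
  obtain ⟨M, ⟨e⟩⟩ := CochainComplex.exists_iso_single (tensorObj (sgl 0 X) (sgl 0 Y)) 0
  refine ⟨Q.map φ, fun h => hφ ?_⟩
  obtain ⟨m, hm⟩ := (HomologicalComplex.single C (ComplexShape.up ℤ) 0).map_surjective
    (e.inv ≫ φ)
  have h1 : (DerivedCategory.singleFunctor C 0).map m = 0 := by
    have h2 : Q.map ((HomologicalComplex.single C (ComplexShape.up ℤ) 0).map m) = 0 := by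
      rw [hm, Q.map_comp]
      exact (congrArg (fun t => Q.map e.inv ≫ t) h).trans comp_zero
    exact h2
  have h3 : m = 0 := (DerivedCategory.singleFunctor C 0).map_injective (by rw [h1, Functor.map_zero])
  rw [h3, Functor.map_zero] at hm
  rw [← cancel_epi e.inv, ← hm, comp_zero]

end

/-- The key property of the `GA`-side: vanishing of morphisms to the nonpositive shifts of the
unit is stable under tensor squares. -/
lemma ga_property [HasDerivedCategory.{w} (RepAlg GAInf)]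
    {X Z : DerivedCategory.Bounded (RepAlg GAInf)} (h : IsTensor X X Z)
    (hX : ∀ q : ℤ, 0 ≤ q → ∀ ψ : X ⟶ sg q (𝟙_ (RepAlg GAInf)), ψ = 0)
    (ψ : Z ⟶ sg 0 (𝟙_ (RepAlg GAInf))) : ψ = 0 := by
  obtain ⟨K, L, hK, hL, ⟨eK⟩, ⟨eL⟩, ⟨eKL⟩⟩ := h
  have i1 := hasTensor_of_bounded K L hK hL
  have key : ∀ (M : CochainComplex (RepAlg GAInf) ℤ) (_ : X.obj ≅ Q.obj M) (q : ℤ), 0 ≤ q →
      Factors M q (𝟙_ (RepAlg GAInf)) := by
    intro M e q hq
    apply factors_of_eq_zero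
    intro φ
    have h1 := hX q hq (ObjectProperty.homMk (e.hom ≫ φ))
    have h2 : e.hom ≫ φ = 0 := congrArg (fun t => t.hom) h1
    rwa [Preadditive.IsIso.comp_left_eq_zero] at h2
  have h3 : Factors (tensorObj K L) 0 (𝟙_ (RepAlg GAInf)) :=
    factors_tensor K L (key K eK) (key L eL)
  have h4 : eKL.inv ≫ ψ.hom = 0 := h3.eq_zero _
  rw [Preadditive.IsIso.comp_left_eq_zero] at h4
  exact ObjectProperty.hom_ext _ h4

/-- The object `L[0]`. -/
lemma sside_hom_zero [HasDerivedCategory.{w} (RepAlg SInf)] (q : ℤ) (hq : 0 ≤ q)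
    (ψ : sg 0 LObj ⟶ sg q (𝟙_ (RepAlg SInf))) : ψ = 0 := by
  apply ObjectProperty.hom_ext
  rcases hq.lt_or_eq with h | rfl
  · have h1 := subsingleton_hom_of_isStrictlyLE_of_isStrictlyGE (sgl 0 LObj)
      (sgl q (𝟙_ (RepAlg SInf))) 0 q h
    exact h1.elim _ _
  · obtain ⟨f, hf⟩ := (DerivedCategory.singleFunctor (RepAlg SInf) 0).map_surjective ψ.hom
    have h2 : f = 0 := ObjectProperty.hom_ext _ (LRep_hom_zero f.hom)
    rw [← hf, h2, Functor.map_zero]
    rfl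

/-- There is no equivalence compatible with shifts, units and tensor products. -/
theorem no_equivalence [HasDerivedCategory.{w₁} (RepAlg GAInf)]
    [HasDerivedCategory.{w₂} (RepAlg SInf)] :
    ¬ ∃ F : DerivedCategory.Bounded (RepAlg GAInf) ≌ DerivedCategory.Bounded (RepAlg SInf),
      (∀ (X : DerivedCategory.Bounded (RepAlg GAInf)) (n : ℤ),
        Nonempty (F.functor.obj (X⟦n⟧) ≅ (F.functor.obj X)⟦n⟧)) ∧
      Nonempty (F.functor.obj (sg 0 (𝟙_ (RepAlg GAInf))) ≅ sg 0 (𝟙_ (RepAlg SInf))) ∧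
      ∀ X Y Z : DerivedCategory.Bounded (RepAlg GAInf), IsTensor X Y Z →
        IsTensor (F.functor.obj X) (F.functor.obj Y) (F.functor.obj Z) := by
  rintro ⟨F, hs, ⟨eu⟩, ht⟩
  have hq : ∀ q : ℤ, Nonempty (F.functor.obj (sg q (𝟙_ (RepAlg GAInf))) ≅
      sg q (𝟙_ (RepAlg SInf))) := by
    intro q
    obtain ⟨e1⟩ := sg_shift q (𝟙_ (RepAlg GAInf))
    obtain ⟨e2⟩ := sg_shift q (𝟙_ (RepAlg SInf))
    obtain ⟨e3⟩ := hs (sg q (𝟙_ (RepAlg GAInf))) q
    exact ⟨(shiftFunctor (DerivedCategory.Bounded (RepAlg SInf)) q).preimageIso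
      (e3.symm ≪≫ F.functor.mapIso e1 ≪≫ eu ≪≫ e2.symm)⟩
  let X := F.inverse.obj (sg 0 LObj)
  let eX : F.functor.obj X ≅ sg 0 LObj := F.counitIso.app _
  obtain ⟨Z, hZ⟩ := exists_isTensor X X
  have h1 := ht X X Z hZ
  have i1 : HasTensor (sgl 0 LObj) (sgl 0 LObj) :=
    hasTensor_of_bounded _ _ (bounded_sgl _ _) (bounded_sgl _ _)
  let ZL : DerivedCategory.Bounded (RepAlg SInf) := ⟨Q.obj (tensorObj (sgl 0 LObj) (sgl 0 LObj)),
    bounded_Q (isBounded_tensorObj (bounded_sgl _ _) (bounded_sgl _ _))⟩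
  have h2 : IsTensor (sg 0 LObj) (sg 0 LObj) ZL :=
    ⟨sgl 0 LObj, sgl 0 LObj, bounded_sgl _ _, bounded_sgl _ _, ⟨Iso.refl _⟩, ⟨Iso.refl _⟩,
      ⟨Iso.refl _⟩⟩
  obtain ⟨eZ⟩ := isTensor_unique (quasiIso_tensorHom_repAlg SInf) h1 h2 eX eX
  have hd : (ObjectProperty.homMk dotHom : LObj ⊗ LObj ⟶ 𝟙_ (RepAlg SInf)) ≠ 0 := by
    intro h
    exact dotHom_ne_zero (congrArg (fun t => t.hom) h)
  obtain ⟨ψ, hψ⟩ := exists_ne_zero _ hd
  let ψ' : ZL ⟶ sg 0 (𝟙_ (RepAlg SInf)) := ObjectProperty.homMk ψ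
  have hψ' : ψ' ≠ 0 := fun h => hψ (congrArg (fun t => t.hom) h)
  obtain ⟨χ, hχ⟩ := F.functor.map_surjective (eZ.hom ≫ ψ' ≫ eu.inv)
  have h3 : χ = 0 := by
    refine ga_property hZ ?_ χ
    intro q hq0 φ
    obtain ⟨eq⟩ := hq q
    have h4 : eX.inv ≫ F.functor.map φ ≫ eq.hom = 0 := sside_hom_zero q hq0 _
    rw [Preadditive.IsIso.comp_left_eq_zero, Preadditive.IsIso.comp_right_eq_zero] at h4
    exact F.functor.map_injective (by rw [h4, Functor.map_zero])
  rw [h3, Functor.map_zero] at hχ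
  have h5 : eZ.hom ≫ ψ' ≫ eu.inv = 0 := hχ.symm
  rw [Preadditive.IsIso.comp_left_eq_zero, Preadditive.IsIso.comp_right_eq_zero] at h5
  exact hψ' h5

/-- The tensor product on the bounded derived category is well defined up to isomorphism: it can
be computed with any bounded complexes representing the two factors. -/
theorem tensorD_iso (H : Subgroup (CInf ≃ₗ[ℂ] CInf)) [HasDerivedCategory.{w} (RepAlg H)]
    {X Y : DerivedCategory.Bounded (RepAlg H)} {K L : CochainComplex (RepAlg H) ℤ}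
    (hK : IsBoundedComplex K) (hL : IsBoundedComplex L) [HasTensor K L]
    (eX : X.obj ≅ Q.obj K) (eY : Y.obj ≅ Q.obj L) :
    Nonempty ((tensorD X Y).obj ≅ Q.obj (tensorObj K L)) := by
  have h : IsTensor X Y ⟨Q.obj (tensorObj K L), bounded_Q (isBounded_tensorObj hK hL)⟩ :=
    ⟨K, L, hK, hL, ⟨eX⟩, ⟨eY⟩, ⟨Iso.refl _⟩⟩
  obtain ⟨e⟩ := isTensor_unique (quasiIso_tensorHom_repAlg H) (isTensor_tensorD X Y) h
    (Iso.refl _) (Iso.refl _)
  exact ⟨Bounded.ι.mapIso e⟩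

/-- There is no equivalence compatible with shifts, units and tensor products (even if these
compatibilities are only asked to be objectwise existence of isomorphisms). -/
theorem no_equivalence' [HasDerivedCategory.{w₁} (RepAlg GAInf)]
    [HasDerivedCategory.{w₂} (RepAlg SInf)] :
    ¬ ∃ F : DerivedCategory.Bounded (RepAlg GAInf) ≌ DerivedCategory.Bounded (RepAlg SInf),
      IsTensorCompatible F := by
  rintro ⟨F, hs, eu, ht⟩
  refine no_equivalence ⟨F, hs, eu, ?_⟩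
  intro X Y Z hZ
  obtain ⟨e1⟩ := ht X Y
  obtain ⟨e2⟩ := isTensor_unique (quasiIso_tensorHom_repAlg GAInf) hZ (isTensor_tensorD X Y)
    (Iso.refl _) (Iso.refl _)
  obtain ⟨K, L, hK, hL, hX, hY, ⟨e3⟩⟩ := isTensor_tensorD (F.functor.obj X) (F.functor.obj Y)
  exact ⟨K, L, hK, hL, hX, hY, ⟨Bounded.ι.mapIso (F.functor.mapIso e2 ≪≫ e1) ≪≫ e3⟩⟩

theorem no_equivalence'' [h₁ : HasDerivedCategory.{w₁} (AlgRep GAInf)]
    [h₂ : HasDerivedCategory.{w₂} (AlgRep SInf)] :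
    ¬ ∃ F : DerivedCategory.Bounded (AlgRep GAInf) ≌ DerivedCategory.Bounded (AlgRep SInf),
      IsTensorCompatible F := @no_equivalence' h₁ h₂

end Pool.Agent.MP8d69b9
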