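import Pool.Agent.MP8d69b9.Weights

open CategoryTheory MonoidalCategory Limits

noncomputable section

namespace Pool.Agent.MP8d69b9

open scoped Classical in
/-- The projection onto the weight zero part along the part of positive weight. -/
def prj (M : Rep.{0} ℂ (Grp GAInf)) : M.V →ₗ[ℂ] M.V :=
  if h : HasWt M then
    (zeroPart M).subtype ∘ₗ Submodule.projectionOnto (zeroPart M) (plusPart M)
      ⟨disjoint_zero_plus M, codisjoint_iff.2 h⟩
  else 0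

variable {M N : Rep.{0} ℂ (Grp GAInf)}

lemma prj_mem (m : M.V) : prj M m ∈ zeroPart M := by
  unfold prj
  split_ifs with h
  · exact Subtype.property _
  · exact zero_mem _

lemma prj_of_zeroPart (h : HasWt M) {m : M.V} (hm : m ∈ zeroPart M) : prj M m = m := by
  unfold prj
  rw [dif_pos h]
  have := Submodule.projectionOnto_apply_left (p := zeroPart M) (q := plusPart M)
    ⟨disjoint_zero_plus M, codisjoint_iff.2 h⟩ ⟨m, hm⟩
  rw [LinearMap.comp_apply, this]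
  rfl

lemma prj_of_plusPart {m : M.V} (hm : m ∈ plusPart M) : prj M m = 0 := by
  unfold prj
  split_ifs with h
  · rw [LinearMap.comp_apply, (Submodule.projectionOnto_apply_eq_zero_iff
      (⟨disjoint_zero_plus M, codisjoint_iff.2 h⟩)).2 hm, map_zero]
  · rfl

lemma prj_eq_iff (h : HasWt M) (m m₀ : M.V) (h₀ : m₀ ∈ zeroPart M) (h₁ : m - m₀ ∈ plusPart M) :
    prj M m = m₀ := by
  have : m = m₀ + (m - m₀) := by abel
  rw [this, map_add, prj_of_zeroPart h h₀, prj_of_plusPart h₁, add_zero]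

lemma sub_prj_mem (h : HasWt M) (m : M.V) : m - prj M m ∈ plusPart M := by
  have hm : m ∈ zeroPart M ⊔ plusPart M := by
    have h' := h
    rw [HasWt] at h'
    rw [h']; trivial
  obtain ⟨a, ha, b, hb, rfl⟩ := Submodule.mem_sup.1 hm
  rw [map_add, prj_of_zeroPart h ha, prj_of_plusPart hb, add_zero, add_sub_cancel_left]
  exact hb

lemma prj_prj (h : HasWt M) (m : M.V) : prj M (prj M m) = prj M m :=
  prj_of_zeroPart h (prj_mem m)

lemma prj_map (hM : HasWt M) (hN : HasWt N) (f : M ⟶ N) (m : M.V) :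
    f.hom (prj M m) = prj N (f.hom m) := by
  symm
  apply prj_eq_iff hN _ _ (zeroPart_map f (prj_mem m))
  rw [← map_sub]
  exact plusPart_map f (sub_prj_mem hM m)

lemma prj_ρ (hM' : InvMod M) (g : Grp GAInf) (m : M.V) :
    prj M (M.ρ g m) = prj M m := by
  have : M.ρ g m = m + (M.ρ g m - m) := by abel
  rw [this, map_add, prj_of_plusPart (hM' g m), add_zero]

lemma plusPart_unit : plusPart (𝟙_ (Rep.{0} ℂ (Grp GAInf))) = ⊥ := by
  rw [eq_bot_iff]
  refine iSup_le fun k => ?_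
  rintro (x : ℂ) ⟨n, hn⟩
  have h := hn n le_rfl
  have h1 : x = (2 : ℂ) ^ (k + 1) * x := h
  show x = 0
  by_contra hx
  have h2 : (2 : ℂ) ^ (k + 1) = 1 := by
    have h3 : ((2 : ℂ) ^ (k + 1) - 1) * x = 0 := by rw [sub_mul, one_mul, ← h1, sub_self]
    rcases mul_eq_zero.1 h3 with h4 | h4
    · exact sub_eq_zero.1 h4
    · exact absurd h4 hx
  have h3 : ((2 ^ (k + 1) : ℕ) : ℂ) = ((1 : ℕ) : ℂ) := by push_cast; exact h2
  have h4 : 2 ^ (k + 1) = 1 := by exact_mod_cast h3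
  have : 1 < 2 ^ (k + 1) := Nat.one_lt_two_pow (by omega)
  omega

lemma hom_unit_plus (f : M ⟶ 𝟙_ _) {m : M.V} (hm : m ∈ plusPart M) : f.hom m = 0 := by
  have := plusPart_map f hm
  rw [plusPart_unit] at this
  exact this

lemma hom_unit_prj (hM : HasWt M) (f : M ⟶ 𝟙_ _) (m : M.V) : f.hom (prj M m) = f.hom m := by
  have h := hom_unit_plus f (sub_prj_mem hM m)
  rw [map_sub, sub_eq_zero] at h
  exact h.symm

lemma hom_tensor_prj_left (hM : HasWt M) (hN : HasWt N) (f : M ⊗ N ⟶ 𝟙_ _) (x : M.V) (y : N.V) :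
    f.hom ((prj M x) ⊗ₜ[ℂ] y : TensorProduct ℂ M.V N.V) =
      f.hom (x ⊗ₜ[ℂ] y : TensorProduct ℂ M.V N.V) := by
  have h := hom_unit_plus f (plus_tmul_mem hN (sub_prj_mem hM x) y)
  rw [TensorProduct.sub_tmul] at h
  erw [map_sub] at h
  rw [sub_eq_zero] at h
  exact h.symm

lemma hom_tensor_prj_right (hM : HasWt M) (hN : HasWt N) (f : M ⊗ N ⟶ 𝟙_ _) (x : M.V) (y : N.V) :
    f.hom (x ⊗ₜ[ℂ] (prj N y) : TensorProduct ℂ M.V N.V) =
      f.hom (x ⊗ₜ[ℂ] y : TensorProduct ℂ M.V N.V) := by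
  have h := hom_unit_plus f (tmul_plus_mem hM x (sub_prj_mem hN y))
  rw [TensorProduct.tmul_sub] at h
  erw [map_sub] at h
  rw [sub_eq_zero] at h
  exact h.symm

/-- The morphism `M ⟶ 𝟙_` induced by a linear form. -/
def toUnit (hM' : InvMod M) (φ : M.V →ₗ[ℂ] ℂ) : M ⟶ 𝟙_ (Rep.{0} ℂ (Grp GAInf)) :=
  Rep.ofHom ⟨φ ∘ₗ prj M, fun g => by
    ext m
    show φ (prj M (M.ρ g m)) = φ (prj M m)
    rw [prj_ρ hM']⟩

lemma toUnit_apply (hM' : InvMod M) (φ : M.V →ₗ[ℂ] ℂ) (m : M.V) :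
    (toUnit hM' φ).hom m = φ (prj M m) := rfl

/-- The morphism `M ⊗ N ⟶ 𝟙_` induced by a bilinear form. -/
def toUnit₂ (hM' : InvMod M) (hN' : InvMod N)
    (b : M.V →ₗ[ℂ] N.V →ₗ[ℂ] ℂ) : M ⊗ N ⟶ 𝟙_ (Rep.{0} ℂ (Grp GAInf)) :=
  Rep.ofHom ⟨TensorProduct.lift ((b ∘ₗ prj M).compl₂ (prj N)), fun g => by
    apply TensorProduct.ext'
    intro x y
    show b (prj M (M.ρ g x)) (prj N (N.ρ g y)) = b (prj M x) (prj N y)
    rw [prj_ρ hM', prj_ρ hN']⟩

lemma toUnit₂_apply (hM' : InvMod M) (hN' : InvMod N)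
    (b : M.V →ₗ[ℂ] N.V →ₗ[ℂ] ℂ) (x : M.V) (y : N.V) :
    (toUnit₂ hM' hN' b).hom (x ⊗ₜ[ℂ] y : TensorProduct ℂ M.V N.V) =
      b (prj M x) (prj N y) := rfl

end Pool.Agent.MP8d69b9
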