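import Pool.Agent.MP8d69b9.TensorFunctor

open CategoryTheory Limits MonoidalCategory HomologicalComplex

noncomputable section

namespace Pool.Agent.MP8d69b9

universe v u v' u'

section

variable {C : Type u} [Category.{v} C] [Preadditive C] [MonoidalCategory C] [MonoidalPreadditive C]
  {K K' K'' L L' L'' : CochainComplex C ℤ} [HasTensor K L] [HasTensor K' L'] [HasTensor K'' L'']

@[reassoc]
lemma ι_tensorHom (f : K ⟶ K') (g : L ⟶ L') (i j n : ℤ) (h : i + j = n) :
    ιTensorObj K L i j n h ≫ (tensorHom f g).f n =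
      (f.f i ▷ L.X j) ≫ (K'.X i ◁ g.f j) ≫ ιTensorObj K' L' i j n h :=
  ι_mapBifunctorMap _ _ _ _ _ _ _ _

lemma tensorHom_comp' (f : K ⟶ K') (f' : K' ⟶ K'') (g : L ⟶ L') (g' : L' ⟶ L'') :
    tensorHom (f ≫ f') (g ≫ g') = tensorHom f g ≫ tensorHom f' g' := by
  ext n : 1
  refine tensor_hom_ext (fun i j hij => ?_)
  rw [comp_f, ι_tensorHom, ι_tensorHom_assoc, ι_tensorHom, comp_f, comp_f, comp_whiskerRight,
    MonoidalCategory.whiskerLeft_comp, Category.assoc, Category.assoc,
    whisker_exchange_assoc (f'.f i) (g.f j)]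

lemma tensorHom_id' : tensorHom (𝟙 K) (𝟙 L) = 𝟙 (tensorObj K L) := by
  ext n : 1
  refine tensor_hom_ext (fun i j hij => ?_)
  rw [ι_tensorHom, id_f, id_f, id_f, id_whiskerRight, MonoidalCategory.whiskerLeft_id,
    Category.id_comp, Category.id_comp, Category.comp_id]

/-- Tensoring preserves homotopy equivalences in the first variable. -/
lemma homotopyEquivalences_tensorHom_left (f : K ⟶ K') [HasTensor K' L]
    (hf : homotopyEquivalences C (ComplexShape.up ℤ) f) :
    homotopyEquivalences C (ComplexShape.up ℤ) (tensorHom f (𝟙 L)) := by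
  obtain ⟨e, rfl⟩ := hf
  refine ⟨⟨tensorHom e.hom (𝟙 L), tensorHom e.inv (𝟙 L), ?_, ?_⟩, rfl⟩
  · refine (Homotopy.ofEq ?_).trans ((mapBifunctorMapHomotopy₁ e.homotopyHomInvId (𝟙 L)
      (curriedTensor C) (ComplexShape.up ℤ)).trans (Homotopy.ofEq tensorHom_id'))
    rw [← tensorHom_comp', Category.comp_id]
  · refine (Homotopy.ofEq ?_).trans ((mapBifunctorMapHomotopy₁ e.homotopyInvHomId (𝟙 L)
      (curriedTensor C) (ComplexShape.up ℤ)).trans (Homotopy.ofEq tensorHom_id'))
    rw [← tensorHom_comp', Category.comp_id]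

/-- Tensoring preserves homotopy equivalences in the second variable. -/
lemma homotopyEquivalences_tensorHom_right (g : L ⟶ L') [HasTensor K L']
    (hg : homotopyEquivalences C (ComplexShape.up ℤ) g) :
    homotopyEquivalences C (ComplexShape.up ℤ) (tensorHom (𝟙 K) g) := by
  obtain ⟨e, rfl⟩ := hg
  refine ⟨⟨tensorHom (𝟙 K) e.hom, tensorHom (𝟙 K) e.inv, ?_, ?_⟩, rfl⟩
  · refine (Homotopy.ofEq ?_).trans ((mapBifunctorMapHomotopy₂ (𝟙 K) e.homotopyHomInvId
      (curriedTensor C) (ComplexShape.up ℤ)).trans (Homotopy.ofEq tensorHom_id'))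
    rw [← tensorHom_comp', Category.comp_id]
  · refine (Homotopy.ofEq ?_).trans ((mapBifunctorMapHomotopy₂ (𝟙 K) e.homotopyInvHomId
      (curriedTensor C) (ComplexShape.up ℤ)).trans (Homotopy.ofEq tensorHom_id'))
    rw [← tensorHom_comp', Category.comp_id]

end

section

variable {D : Type u} [Category.{v} D] [Abelian D] [MonoidalCategory D] [MonoidalPreadditive D]

lemma isKInjective_of_bounded (hI : ∀ X : D, Injective X) {K : CochainComplex D ℤ}
    (hK : IsBoundedComplex K) : K.IsKInjective := by
  obtain ⟨a, b, hab⟩ := hK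
  have h1 : K.IsStrictlyGE a := by
    rw [CochainComplex.isStrictlyGE_iff]
    intro i hi
    exact hab i (Or.inl hi)
  have : ∀ n, Injective (K.X n) := fun n => hI _
  exact CochainComplex.isKInjective_of_injective K a

variable {K K' L L' : CochainComplex D ℤ}

/-- If all objects are injective, tensoring bounded complexes preserves quasi-isomorphisms. -/
lemma quasiIso_tensorHom_of_injective (hI : ∀ X : D, Injective X)
    (hK : IsBoundedComplex K) (hK' : IsBoundedComplex K') (hL : IsBoundedComplex L)
    (hL' : IsBoundedComplex L') [HasTensor K L] [HasTensor K' L'] (f : K ⟶ K') (g : L ⟶ L')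
    [QuasiIso f] [QuasiIso g] : QuasiIso (tensorHom f g) := by
  have := isKInjective_of_bounded hI hK
  have := isKInjective_of_bounded hI hK'
  have := isKInjective_of_bounded hI hL
  have := isKInjective_of_bounded hI hL'
  have : HasTensor K' L := hasTensor_of_bounded K' L hK' hL
  have h1 := homotopyEquivalences_tensorHom_left (L := L) f
    ((CochainComplex.IsKInjective.quasiIso_iff f).1 inferInstance)
  have h2 := homotopyEquivalences_tensorHom_right (K := K') g
    ((CochainComplex.IsKInjective.quasiIso_iff g).1 inferInstance)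
  have h3 : tensorHom f g = tensorHom f (𝟙 L) ≫ tensorHom (𝟙 K') g := by
    rw [← tensorHom_comp', Category.id_comp, Category.comp_id]
  have h1' : QuasiIso (tensorHom f (𝟙 L)) := homotopyEquivalences_le_quasiIso _ _ _ h1
  have h2' : QuasiIso (tensorHom (𝟙 K') g) := homotopyEquivalences_le_quasiIso _ _ _ h2
  rw [h3]
  infer_instance

variable {C : Type u'} [Category.{v'} C] [Abelian C] [MonoidalCategory C] [MonoidalPreadditive C]

lemma isBounded_mapC {K : CochainComplex C ℤ} (hK : IsBoundedComplex K) (G : C ⥤ D) [G.Additive] :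
    IsBoundedComplex (mapC G K) := by
  obtain ⟨a, b, hab⟩ := hK
  exact ⟨a, b, fun i hi => G.map_isZero (hab i hi)⟩

/-- Tensoring bounded complexes preserves quasi-isomorphisms, in presence of an exact
functor, reflecting isomorphisms and compatible with tensor products, to a category
in which all objects are injective. -/
lemma quasiIso_tensorHom (hI : ∀ X : D, Injective X) {G : C ⥤ D} [G.Additive]
    [G.PreservesHomology] [G.ReflectsIsomorphisms] (T : TensorFunctorData G)
    {K K' L L' : CochainComplex C ℤ}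
    (hK : IsBoundedComplex K) (hK' : IsBoundedComplex K') (hL : IsBoundedComplex L)
    (hL' : IsBoundedComplex L') [HasTensor K L] [HasTensor K' L'] (f : K ⟶ K') (g : L ⟶ L')
    [QuasiIso f] [QuasiIso g] : QuasiIso (tensorHom f g) := by
  have i1 := hasTensor_of_bounded _ _ (isBounded_mapC hK G) (isBounded_mapC hL G)
  have i2 := hasTensor_of_bounded _ _ (isBounded_mapC hK' G) (isBounded_mapC hL' G)
  rw [← quasiIso_map_iff_of_preservesHomology _ G]
  have h1 := quasiIso_tensorHom_of_injective hI (isBounded_mapC hK G) (isBounded_mapC hK' G)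
    (isBounded_mapC hL G) (isBounded_mapC hL' G)
    ((G.mapHomologicalComplex (ComplexShape.up ℤ)).map f)
    ((G.mapHomologicalComplex (ComplexShape.up ℤ)).map g)
  have h2 := comparison_naturality T f g
  have h3 := isIso_comparison T hK hL
  have h4 := isIso_comparison T hK' hL'
  have h5 : QuasiIso (comparison T K L ≫
      (G.mapHomologicalComplex (ComplexShape.up ℤ)).map (tensorHom f g)) := by
    rw [← h2]; infer_instance
  exact quasiIso_of_comp_left (comparison T K L) _

end

end Pool.Agent.MP8d69b9
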