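import Pool.Agent.MP8d69b9.TensorDef
import Pool.Agent.MP8d69b9.QuasiIso
import Pool.Agent.MP8d69b9.Single

open CategoryTheory Limits MonoidalCategory HomologicalComplex DerivedCategory

noncomputable section

namespace Pool.Agent.MP8d69b9

universe w w' v v' u u'

variable {C : Type u} [Category.{v} C] [Abelian C] [MonoidalCategory C] [MonoidalPreadditive C]

variable [HasDerivedCategory.{w} C]

/-- `IsTensor X Y Z` says that `Z` is (isomorphic to) the tensor product of the objects `X` and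
`Y` of the bounded derived category: there are bounded complexes `K` and `L` representing
`X` and `Y` such that the total complex `K ⊗ L` represents `Z`. -/
def IsTensor (X Y Z : DerivedCategory.Bounded C) : Prop :=
  ∃ (K L : CochainComplex C ℤ) (hK : IsBoundedComplex K) (hL : IsBoundedComplex L),
    haveI : HasTensor K L := hasTensor_of_bounded K L hK hL
    Nonempty (X.obj ≅ Q.obj K) ∧ Nonempty (Y.obj ≅ Q.obj L) ∧
      Nonempty (Z.obj ≅ Q.obj (tensorObj K L))

/-- Existence of tensor products in the bounded derived category. -/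
lemma exists_isTensor (X Y : DerivedCategory.Bounded C) : ∃ Z, IsTensor X Y Z := by
  obtain ⟨K, hK, eK⟩ := exists_bounded_complex X
  obtain ⟨L, hL, eL⟩ := exists_bounded_complex Y
  have : HasTensor K L := hasTensor_of_bounded K L hK hL
  exact ⟨⟨Q.obj (tensorObj K L), bounded_Q (isBounded_tensorObj hK hL)⟩, K, L, hK, hL, eK, eL,
    ⟨Iso.refl _⟩⟩

omit [MonoidalCategory C] [MonoidalPreadditive C] in
/-- Isomorphic bounded complexes in the derived category are related by a roof of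
quasi-isomorphisms of bounded complexes. -/
lemma exists_roof {K K' : CochainComplex C ℤ} (hK : IsBoundedComplex K)
    (hK' : IsBoundedComplex K') (e : Q.obj K ≅ Q.obj K') :
    ∃ (K'' : CochainComplex C ℤ) (_ : IsBoundedComplex K'') (s : K'' ⟶ K) (g : K'' ⟶ K'),
      QuasiIso s ∧ QuasiIso g := by
  obtain ⟨a, b, h1, h2, h3, h4⟩ := exists_bounds hK hK'
  obtain ⟨K'', h5, h6, s, hs, g, hg⟩ := right_fac_of_isStrictlyLE_of_isStrictlyGE a b e.hom
  have h7 : IsIso (Q.map g) := by
    have h8 : Q.map g = Q.map s ≫ e.hom := by rw [hg, IsIso.hom_inv_id_assoc]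
    rw [h8]; infer_instance
  exact ⟨K'', isBoundedComplex_of_strictly K'' a b, s, g, (isIso_Q_map_iff_quasiIso _ s).1 hs,
    (isIso_Q_map_iff_quasiIso _ g).1 h7⟩

/-- Uniqueness of tensor products in the bounded derived category. -/
lemma isTensor_unique
    (hT : ∀ {K K' L L' : CochainComplex C ℤ} (_ : IsBoundedComplex K) (_ : IsBoundedComplex K')
      (_ : IsBoundedComplex L) (_ : IsBoundedComplex L') [HasTensor K L] [HasTensor K' L']
      (f : K ⟶ K') (g : L ⟶ L') [QuasiIso f] [QuasiIso g], QuasiIso (tensorHom f g))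
    {X Y Z X' Y' Z' : DerivedCategory.Bounded C}
    (h : IsTensor X Y Z) (h' : IsTensor X' Y' Z') (eX : X ≅ X') (eY : Y ≅ Y') :
    Nonempty (Z ≅ Z') := by
  obtain ⟨K, L, hK, hL, ⟨eK⟩, ⟨eL⟩, ⟨eKL⟩⟩ := h
  obtain ⟨K', L', hK', hL', ⟨eK'⟩, ⟨eL'⟩, ⟨eKL'⟩⟩ := h'
  obtain ⟨K'', hK'', s, g, hs, hg⟩ := exists_roof hK hK'
    (eK.symm ≪≫ Bounded.ι.mapIso eX ≪≫ eK')
  obtain ⟨L'', hL'', s', g', hs', hg'⟩ := exists_roof hL hL'
    (eL.symm ≪≫ Bounded.ι.mapIso eY ≪≫ eL')
  have i1 := hasTensor_of_bounded K L hK hL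
  have i2 := hasTensor_of_bounded K' L' hK' hL'
  have i3 := hasTensor_of_bounded K'' L'' hK'' hL''
  have q1 : QuasiIso (tensorHom s s') := hT hK'' hK hL'' hL s s'
  have q2 : QuasiIso (tensorHom g g') := hT hK'' hK' hL'' hL' g g'
  have q3 : IsIso (Q.map (tensorHom s s')) := (isIso_Q_map_iff_quasiIso _ _).2 q1
  have q4 : IsIso (Q.map (tensorHom g g')) := (isIso_Q_map_iff_quasiIso _ _).2 q2
  have e : Z.obj ≅ Z'.obj := eKL ≪≫ (asIso (Q.map (tensorHom s s'))).symm ≪≫
    asIso (Q.map (tensorHom g g')) ≪≫ eKL'.symm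
  exact ⟨Bounded.ι.preimageIso e⟩

lemma isTensor_tensorD (X Y : DerivedCategory.Bounded C) : IsTensor X Y (tensorD X Y) :=
  ⟨repr X, repr Y, isBounded_repr X, isBounded_repr Y, repr_iso X, repr_iso Y, ⟨Iso.refl _⟩⟩

end Pool.Agent.MP8d69b9
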