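import Pool.Agent.MP8d69b9.Bounded

/-!
# The tensor product on the bounded derived category

Let `C` be an abelian category with an exact tensor product. The tensor product of two objects of
the bounded derived category is represented by the total complex of the tensor product
of bounded complexes representing them.
-/

open CategoryTheory Limits MonoidalCategory HomologicalComplex DerivedCategory

noncomputable section

namespace Pool.Agent.MP8d69b9

universe w w' v v' u u'

variable {C : Type u} [Category.{v} C] [Abelian C] [MonoidalCategory C] [MonoidalPreadditive C]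

omit [MonoidalCategory C] [MonoidalPreadditive C] in
lemma isBoundedComplex_of_strictly (K : CochainComplex C ℤ) (a b : ℤ) [K.IsStrictlyGE a]
    [K.IsStrictlyLE b] : IsBoundedComplex K :=
  ⟨a, b, fun i hi => hi.elim (fun h => K.isZero_of_isStrictlyGE a i h)
    (fun h => K.isZero_of_isStrictlyLE b i h)⟩

omit [MonoidalCategory C] [MonoidalPreadditive C] in
lemma exists_bounds {K L : CochainComplex C ℤ} (hK : IsBoundedComplex K)
    (hL : IsBoundedComplex L) : ∃ a b : ℤ, K.IsStrictlyGE a ∧ K.IsStrictlyLE b ∧
      L.IsStrictlyGE a ∧ L.IsStrictlyLE b := by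
  obtain ⟨a, b, hab⟩ := hK
  obtain ⟨a', b', hab'⟩ := hL
  refine ⟨min a a', max b b', ?_, ?_, ?_, ?_⟩
  · rw [CochainComplex.isStrictlyGE_iff]
    exact fun i hi => hab i (Or.inl (by omega))
  · rw [CochainComplex.isStrictlyLE_iff]
    exact fun i hi => hab i (Or.inr (by omega))
  · rw [CochainComplex.isStrictlyGE_iff]
    exact fun i hi => hab' i (Or.inl (by omega))
  · rw [CochainComplex.isStrictlyLE_iff]
    exact fun i hi => hab' i (Or.inr (by omega))

/-- The tensor product of bounded complexes is bounded. -/
lemma isBounded_tensorObj {K L : CochainComplex C ℤ} (hK : IsBoundedComplex K)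
    (hL : IsBoundedComplex L) [HasTensor K L] : IsBoundedComplex (tensorObj K L) := by
  obtain ⟨a, b, hab⟩ := hK
  obtain ⟨a', b', hab'⟩ := hL
  refine ⟨a + a', b + b', fun n hn => ?_⟩
  rw [IsZero.iff_id_eq_zero]
  refine tensor_hom_ext (fun i j hij => ?_)
  refine IsZero.eq_of_src ?_ _ _
  rcases hn with hn | hn
  · by_cases hi : i < a
    · exact isZero_tensor_left (hab i (Or.inl hi))
    · exact isZero_tensor_right (hab' j (Or.inl (by omega)))
  · by_cases hi : b < i
    · exact isZero_tensor_left (hab i (Or.inr hi))
    · exact isZero_tensor_right (hab' j (Or.inr (by omega)))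

variable [HasDerivedCategory.{w} C]

omit [MonoidalCategory C] [MonoidalPreadditive C] in
lemma exists_bounded_complex (X : DerivedCategory.Bounded C) :
    ∃ K : CochainComplex C ℤ, IsBoundedComplex K ∧ Nonempty (X.obj ≅ Q.obj K) := by
  obtain ⟨X, ⟨a, ha⟩, ⟨b, hb⟩⟩ := X
  have : X.IsGE a := ha
  have : X.IsLE b := hb
  obtain ⟨K, h1, h2, h3⟩ := X.exists_iso_Q_obj_of_isGE_of_isLE a b
  exact ⟨K, isBoundedComplex_of_strictly K a b, h3⟩

omit [MonoidalCategory C] [MonoidalPreadditive C] in
lemma bounded_Q {K : CochainComplex C ℤ} (hK : IsBoundedComplex K) :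
    TStructure.t.bounded (Q.obj K) := by
  obtain ⟨a, b, h1, h2, -, -⟩ := exists_bounds hK hK
  exact ⟨⟨a, (inferInstance : (Q.obj K).IsGE a)⟩, ⟨b, (inferInstance : (Q.obj K).IsLE b)⟩⟩

/-- The object `M` placed in degree `q`, as an object of the bounded derived category. -/
def sg (q : ℤ) (M : C) : DerivedCategory.Bounded C :=
  ⟨(DerivedCategory.singleFunctor C q).obj M, ⟨⟨q, inferInstance⟩, ⟨q, inferInstance⟩⟩⟩

/-- A bounded complex representing an object of the bounded derived category. -/
def repr (X : DerivedCategory.Bounded C) : CochainComplex C ℤ := (exists_bounded_complex X).choose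

omit [MonoidalCategory C] [MonoidalPreadditive C] in
lemma isBounded_repr (X : DerivedCategory.Bounded C) : IsBoundedComplex (repr X) :=
  (exists_bounded_complex X).choose_spec.1

omit [MonoidalCategory C] [MonoidalPreadditive C] in
lemma repr_iso (X : DerivedCategory.Bounded C) : Nonempty (X.obj ≅ Q.obj (repr X)) :=
  (exists_bounded_complex X).choose_spec.2

instance hasTensor_repr (X Y : DerivedCategory.Bounded C) : HasTensor (repr X) (repr Y) :=
  hasTensor_of_bounded _ _ (isBounded_repr X) (isBounded_repr Y)

/-- The tensor product of two objects `X`, `Y` of the bounded derived category (for an exact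
tensor product): the class of the total complex of the tensor product of bounded
complexes representing `X` and `Y`. By `tensorD_iso` it does not depend, up to isomorphism, on the
chosen representatives. -/
def tensorD (X Y : DerivedCategory.Bounded C) : DerivedCategory.Bounded C :=
  ⟨Q.obj (tensorObj (repr X) (repr Y)),
    bounded_Q (isBounded_tensorObj (isBounded_repr X) (isBounded_repr Y))⟩

/-- The equivalence `F` between the bounded derived categories of two abelian categories `C`, `D`
with exact tensor products is compatible with shifts, with the units (placed in degree `0`) and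
with tensor products, in the weakest sense: there are isomorphisms `F (X⟦n⟧) ≅ (F X)⟦n⟧`,
`F 1 ≅ 1` and `F (X ⊗ Y) ≅ F X ⊗ F Y` for all objects `X`, `Y` and integers `n` (no naturality or
coherence is required). -/
def IsTensorCompatible {D : Type u'} [Category.{v'} D] [Abelian D] [MonoidalCategory D]
    [MonoidalPreadditive D] [HasDerivedCategory.{w'} D]
    (F : DerivedCategory.Bounded C ≌ DerivedCategory.Bounded D) : Prop :=
  (∀ (X : DerivedCategory.Bounded C) (n : ℤ),
    Nonempty (F.functor.obj (X⟦n⟧) ≅ (F.functor.obj X)⟦n⟧)) ∧
  Nonempty (F.functor.obj (sg 0 (𝟙_ C)) ≅ sg 0 (𝟙_ D)) ∧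
  ∀ X Y : DerivedCategory.Bounded C,
    Nonempty (F.functor.obj (tensorD X Y) ≅ tensorD (F.functor.obj X) (F.functor.obj Y))

end Pool.Agent.MP8d69b9
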