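import Pool.Agent.MP8d69b9.Coprod

open CategoryTheory Limits MonoidalCategory HomologicalComplex

noncomputable section

namespace Pool.Agent.MP8d69b9

universe v u v' u'

section

variable {C : Type u} [Category.{v} C] [Preadditive C] [MonoidalCategory C] [MonoidalPreadditive C]
  [HasZeroObject C]
  {D : Type u'} [Category.{v'} D] [Preadditive D] [MonoidalCategory D] [MonoidalPreadditive D]
  [HasZeroObject D]

/-- Data saying that the additive functor `G` is compatible with tensor products. -/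
structure TensorFunctorData (G : C ⥤ D) where
  μ : ∀ X Y : C, G.obj X ⊗ G.obj Y ≅ G.obj (X ⊗ Y)
  left : ∀ {X X' : C} (f : X ⟶ X') (Y : C),
    (G.map f ▷ G.obj Y) ≫ (μ X' Y).hom = (μ X Y).hom ≫ G.map (f ▷ Y)
  right : ∀ (X : C) {Y Y' : C} (f : Y ⟶ Y'),
    (G.obj X ◁ G.map f) ≫ (μ X Y').hom = (μ X Y).hom ≫ G.map (X ◁ f)

variable {G : C ⥤ D} [G.Additive] (T : TensorFunctorData G) (K L : CochainComplex C ℤ)

/-- The complex obtained by applying `G`. -/
abbrev mapC (G : C ⥤ D) [G.Additive] (K : CochainComplex C ℤ) : CochainComplex D ℤ :=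
  (G.mapHomologicalComplex (ComplexShape.up ℤ)).obj K

omit [HasZeroObject C] in
lemma ι_d' (K L : CochainComplex C ℤ) [HasTensor K L] (i i' j j' n n' : ℤ) (hi : i + 1 = i')
    (hj : j + 1 = j') (h : i + j = n) (h' : n + 1 = n') :
    ιTensorObj K L i j n h ≫ (tensorObj K L).d n n' =
      (K.d i i' ▷ L.X j) ≫ ιTensorObj K L i' j n' (by omega) +
      i.negOnePow • (K.X i ◁ L.d j j') ≫ ιTensorObj K L i j' n' (by omega) := by
  rw [mapBifunctor.d_eq, Preadditive.comp_add, mapBifunctor.ι_D₁, mapBifunctor.ι_D₂,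
    mapBifunctor.d₁_eq K L (curriedTensor _) (ComplexShape.up ℤ)
      (show (ComplexShape.up ℤ).Rel i i' from hi) j n' (by simp; omega),
    mapBifunctor.d₂_eq K L (curriedTensor _) (ComplexShape.up ℤ) i
      (show (ComplexShape.up ℤ).Rel j j' from hj) n' (by simp; omega)]
  simp


variable [HasTensor K L] [HasTensor (mapC G K) (mapC G L)]

/-- The comparison morphism in degree `n`. -/
def comparisonX (n : ℤ) :
    (tensorObj (mapC G K) (mapC G L)).X n ⟶ (mapC G (tensorObj K L)).X n :=
  tDesc (mapC G K) (mapC G L)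
    (fun i j h => (T.μ (K.X i) (L.X j)).hom ≫ G.map (ιTensorObj K L i j n h))

omit [HasZeroObject C] [HasZeroObject D] in
@[reassoc]
lemma ι_comparisonX (n i j : ℤ) (h : i + j = n) :
    ιTensorObj (mapC G K) (mapC G L) i j n h ≫ comparisonX T K L n =
      (T.μ (K.X i) (L.X j)).hom ≫ G.map (ιTensorObj K L i j n h) :=
  ι_tDesc _ _ _ _ _ _

/-- The comparison morphism `G K ⊗ G L ⟶ G (K ⊗ L)`. -/
def comparison : tensorObj (mapC G K) (mapC G L) ⟶ mapC G (tensorObj K L) where
  f n := comparisonX T K L n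
  comm' n n' hn := by
    have hn' : n + 1 = n' := hn
    refine tensor_hom_ext (fun i j hij => ?_)
    have e1 := ι_d' (mapC G K) (mapC G L) i (i + 1) j (j + 1) n n' rfl rfl hij hn'
    have h1 := congrArg G.map (ι_d' K L i (i + 1) j (j + 1) n n' rfl rfl hij hn')
    have h4 := ι_comparisonX T K L n i j hij
    have h5 := ι_comparisonX T K L n' (i + 1) j (by omega)
    have h6 := ι_comparisonX T K L n' i (j + 1) (by omega)
    have h7 := T.left (K.d i (i + 1)) (L.X j)
    have h8 := T.right (K.X i) (L.d j (j + 1))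
    have h9 : ((mapC G K).d i (i + 1) ▷ (mapC G L).X j) = (G.map (K.d i (i + 1)) ▷ G.obj (L.X j)) := rfl
    have h10 : ((mapC G K).X i ◁ (mapC G L).d j (j + 1)) = (G.obj (K.X i) ◁ G.map (L.d j (j + 1))) := rfl
    have s1 : (T.μ (K.X i) (L.X j)).hom ≫ G.map (ιTensorObj K L i j n hij ≫
            (tensorObj K L).d n n')
      = (G.map (K.d i (i + 1)) ▷ G.obj (L.X j)) ≫ (T.μ (K.X (i + 1)) (L.X j)).hom ≫
            G.map (ιTensorObj K L (i + 1) j n' (by omega)) +
          i.negOnePow • (G.obj (K.X i) ◁ G.map (L.d j (j + 1))) ≫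
            (T.μ (K.X i) (L.X (j + 1))).hom ≫ G.map (ιTensorObj K L i (j + 1) n' (by omega)) := by
      rw [h1, G.map_add, G.map_comp, Functor.map_units_smul, G.map_comp,
        Preadditive.comp_add, Linear.comp_units_smul, ← Category.assoc, ← h7,
        ← Category.assoc _ _ (G.map (ιTensorObj K L i (j + 1) n' _)), ← h8,
        Category.assoc, Category.assoc]
    have s2 : (T.μ (K.X i) (L.X j)).hom ≫ G.map (ιTensorObj K L i j n hij ≫
            (tensorObj K L).d n n') =
          ((T.μ (K.X i) (L.X j)).hom ≫ G.map (ιTensorObj K L i j n hij)) ≫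
            G.map ((tensorObj K L).d n n') := by
      rw [Category.assoc, G.map_comp]
    have s3 : ιTensorObj (mapC G K) (mapC G L) i j n hij ≫ comparisonX T K L n ≫
          (mapC G (tensorObj K L)).d n n' =
        (ιTensorObj (mapC G K) (mapC G L) i j n hij ≫ comparisonX T K L n) ≫
          (mapC G (tensorObj K L)).d n n' := (Category.assoc _ _ _).symm
    have s4 : (ιTensorObj (mapC G K) (mapC G L) i j n hij ≫
            (tensorObj (mapC G K) (mapC G L)).d n n') ≫ comparisonX T K L n' =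
        ((mapC G K).d i (i + 1) ▷ (mapC G L).X j) ≫ (T.μ (K.X (i + 1)) (L.X j)).hom ≫
            G.map (ιTensorObj K L (i + 1) j n' (by omega)) +
          i.negOnePow • ((mapC G K).X i ◁ (mapC G L).d j (j + 1)) ≫
            (T.μ (K.X i) (L.X (j + 1))).hom ≫ G.map (ιTensorObj K L i (j + 1) n' (by omega)) := by
      rw [e1, Preadditive.add_comp, Linear.units_smul_comp, Category.assoc, Category.assoc,
        h5, h6]
      rfl
    rw [h4] at s3
    exact s3.trans (s2.symm.trans (s1.trans (s4.symm.trans (Category.assoc _ _ _))))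

variable {K L}

omit [HasZeroObject C] [HasZeroObject D] in
/-- The comparison morphism is an isomorphism in each degree (bounded complexes). -/
lemma isIso_comparisonX (hK : IsBoundedComplex K) (hL : IsBoundedComplex L) (n : ℤ) :
    IsIso (comparisonX T K L n) := by
  obtain ⟨S, hS⟩ := exists_finset K L hK hL n
  let p := ComplexShape.π (ComplexShape.up ℤ) (ComplexShape.up ℤ) (ComplexShape.up ℤ)
  let X := (((GradedObject.mapBifunctor (curriedTensor C) ℤ ℤ).obj K.X).obj L.X)
  let c : Cofan (X.mapObjFun p n) := X.cofanMapObj p n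
  have hc : IsColimit c := X.isColimitCofanMapObj p n
  have hG := isColimitMapCofan c hc G S hS
  let inv : (G.obj c.pt) ⟶ (tensorObj (mapC G K) (mapC G L)).X n :=
    Cofan.IsColimit.desc hG (fun j => (T.μ (K.X j.1.1) (L.X j.1.2)).inv ≫
      ιTensorObj (mapC G K) (mapC G L) j.1.1 j.1.2 n j.2)
  have hinv : ∀ (i j : ℤ) (hij : i + j = n), G.map (ιTensorObj K L i j n hij) ≫ inv =
      (T.μ (K.X i) (L.X j)).inv ≫ ιTensorObj (mapC G K) (mapC G L) i j n hij := by
    intro i j hij
    exact Cofan.IsColimit.fac hG _ (⟨(i, j), hij⟩ : p ⁻¹' {n})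
  refine ⟨inv, ?_, ?_⟩
  · refine tensor_hom_ext (fun i j hij => ?_)
    have h1 := ι_comparisonX T K L n i j hij
    have h2 := hinv i j hij
    have h3 : ((T.μ (K.X i) (L.X j)).hom ≫ G.map (ιTensorObj K L i j n hij)) ≫ inv =
        ιTensorObj (mapC G K) (mapC G L) i j n hij := by
      rw [Category.assoc, h2, Iso.hom_inv_id_assoc]
    rw [← h1] at h3
    exact (Category.assoc _ _ _).symm.trans (h3.trans (Category.comp_id _).symm)
  · refine Cofan.IsColimit.hom_ext hG _ _ ?_
    rintro ⟨⟨i, j⟩, hij⟩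
    have hij' : i + j = n := hij
    have h1 := ι_comparisonX T K L n i j hij'
    have h2 := hinv i j hij'
    have h3 : (G.map (ιTensorObj K L i j n hij') ≫ inv) ≫ comparisonX T K L n =
        G.map (ιTensorObj K L i j n hij') := by
      rw [h2]
      exact (Category.assoc _ _ _).trans
        ((congrArg (fun t => (T.μ (K.X i) (L.X j)).inv ≫ t) h1).trans (Iso.inv_hom_id_assoc _ _))
    exact (Category.assoc _ _ _).symm.trans (h3.trans (Category.comp_id _).symm)

omit [HasZeroObject C] [HasZeroObject D] in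
/-- The comparison morphism is an isomorphism (bounded complexes). -/
lemma isIso_comparison (hK : IsBoundedComplex K) (hL : IsBoundedComplex L) :
    IsIso (comparison T K L) := by
  have : ∀ n, IsIso ((comparison T K L).f n) := fun n => isIso_comparisonX T hK hL n
  exact HomologicalComplex.Hom.isIso_of_components _

omit [HasZeroObject C] [HasZeroObject D] in
/-- Naturality of the comparison morphism. -/
lemma comparison_naturality {K' L' : CochainComplex C ℤ} [HasTensor K' L']
    [HasTensor (mapC G K') (mapC G L')] (f : K ⟶ K') (g : L ⟶ L') :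
    tensorHom ((G.mapHomologicalComplex (ComplexShape.up ℤ)).map f)
      ((G.mapHomologicalComplex (ComplexShape.up ℤ)).map g) ≫ comparison T K' L' =
    comparison T K L ≫ (G.mapHomologicalComplex (ComplexShape.up ℤ)).map (tensorHom f g) := by
  ext n : 1
  refine tensor_hom_ext (fun i j hij => ?_)
  have e1 : ιTensorObj (mapC G K) (mapC G L) i j n hij ≫
      (tensorHom ((G.mapHomologicalComplex (ComplexShape.up ℤ)).map f)
      ((G.mapHomologicalComplex (ComplexShape.up ℤ)).map g)).f n =
      (G.map (f.f i) ▷ G.obj (L.X j)) ≫ (G.obj (K'.X i) ◁ G.map (g.f j)) ≫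
        ιTensorObj (mapC G K') (mapC G L') i j n hij :=
    ι_mapBifunctorMap _ _ _ _ _ _ _ _
  have e2 : ιTensorObj K L i j n hij ≫ (tensorHom f g).f n =
      (f.f i ▷ L.X j) ≫ (K'.X i ◁ g.f j) ≫ ιTensorObj K' L' i j n hij :=
    ι_mapBifunctorMap _ _ _ _ _ _ _ _
  have h4 := ι_comparisonX T K L n i j hij
  have h5 := ι_comparisonX T K' L' n i j hij
  have h7 := T.left (f.f i) (L.X j)
  have h8 := T.right (K'.X i) (g.f j)
  have s1 : ιTensorObj (mapC G K) (mapC G L) i j n hij ≫
      (tensorHom ((G.mapHomologicalComplex (ComplexShape.up ℤ)).map f)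
      ((G.mapHomologicalComplex (ComplexShape.up ℤ)).map g)).f n ≫ comparisonX T K' L' n =
      (G.map (f.f i) ▷ G.obj (L.X j)) ≫ (G.obj (K'.X i) ◁ G.map (g.f j)) ≫
        (T.μ (K'.X i) (L'.X j)).hom ≫ G.map (ιTensorObj K' L' i j n hij) := by
    refine (Category.assoc _ _ _).symm.trans ?_
    refine (congrArg (fun t => t ≫ comparisonX T K' L' n) e1).trans ?_
    refine (Category.assoc _ _ _).trans ?_
    refine congrArg (fun t => (G.map (f.f i) ▷ G.obj (L.X j)) ≫ t) ?_
    refine (Category.assoc _ _ _).trans ?_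
    exact congrArg (fun t => (G.obj (K'.X i) ◁ G.map (g.f j)) ≫ t) h5
  have s2 : (ιTensorObj (mapC G K) (mapC G L) i j n hij ≫ comparisonX T K L n) ≫
      G.map ((tensorHom f g).f n) =
      (G.map (f.f i) ▷ G.obj (L.X j)) ≫ (G.obj (K'.X i) ◁ G.map (g.f j)) ≫
        (T.μ (K'.X i) (L'.X j)).hom ≫ G.map (ιTensorObj K' L' i j n hij) := by
    have h9 : (T.μ (K.X i) (L.X j)).hom ≫ G.map (ιTensorObj K L i j n hij) ≫
        G.map ((tensorHom f g).f n) =
      (G.map (f.f i) ▷ G.obj (L.X j)) ≫ (G.obj (K'.X i) ◁ G.map (g.f j)) ≫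
        (T.μ (K'.X i) (L'.X j)).hom ≫ G.map (ιTensorObj K' L' i j n hij) := by
      rw [← G.map_comp, e2, G.map_comp, G.map_comp, reassoc_of% h8, reassoc_of% h7]
    rw [h4]
    exact (Category.assoc _ _ _).trans h9
  exact s1.trans (s2.symm.trans (Category.assoc _ _ _))

end

end Pool.Agent.MP8d69b9
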