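import Pool.Agent.MP8d69b9.Closure

open CategoryTheory MonoidalCategory Limits

noncomputable section

namespace Pool.Agent.MP8d69b9

attribute [local instance] Abelian.hasFiniteBiproducts

/-! ### The diagonal elements `g_n` of `GA(∞)` -/

/-- The diagonal map with entries `c i`. -/
def diagMap (c : ℕ → ℂ) : CInf →ₗ[ℂ] CInf :=
  Finsupp.lsum ℂ (fun i => c i • Finsupp.lsingle i)

lemma diagMap_single (c : ℕ → ℂ) (i : ℕ) (a : ℂ) :
    diagMap c (Finsupp.single i a) = Finsupp.single i (c i * a) := by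
  simp [diagMap]

lemma diagMap_apply (c : ℕ → ℂ) (x : CInf) (i : ℕ) : diagMap c x i = c i * x i := by
  induction x using Finsupp.induction_linear with
  | zero => simp
  | add x y hx hy => simp [hx, hy, mul_add]
  | single j a =>
    rw [diagMap_single]
    by_cases h : j = i
    · subst h; simp
    · simp [h]

/-- The diagonal automorphism with invertible entries `c i`. -/
def diagEquiv (c : ℕ → ℂ) (hc : ∀ i, c i ≠ 0) : CInf ≃ₗ[ℂ] CInf :=
  LinearEquiv.ofLinearMap (diagMap c) (diagMap (fun i => (c i)⁻¹))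
    (by ext i j; simp [diagMap_apply, hc]) (by ext i j; simp [diagMap_apply, hc])

lemma diagEquiv_apply (c : ℕ → ℂ) (hc : ∀ i, c i ≠ 0) (x : CInf) (i : ℕ) :
    diagEquiv c hc x i = c i * x i := diagMap_apply c x i

lemma diagEquiv_single (c : ℕ → ℂ) (hc : ∀ i, c i ≠ 0) (i : ℕ) (a : ℂ) :
    diagEquiv c hc (Finsupp.single i a) = Finsupp.single i (c i * a) := diagMap_single c i a

/-- The entries of the diagonal matrix `g_n = diag(1, 2, …, 2, 1, 1, …)` (with `n` entries `2`). -/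
def gEntry (n i : ℕ) : ℂ := if 1 ≤ i ∧ i ≤ n then 2 else 1

lemma gEntry_ne_zero (n i : ℕ) : gEntry n i ≠ 0 := by
  unfold gEntry; split_ifs <;> norm_num

/-- The element `g_n = diag(1, 2, …, 2, 1, 1, …)` of `GA(∞)`. -/
def gEl (n : ℕ) : Grp GAInf :=
  ⟨diagEquiv (gEntry n) (gEntry_ne_zero n), by
    refine ⟨(finitelyPerturbed_iff _).2 ⟨n + 1, fun j hj => ?_, fun x i hi => ?_⟩, fun v => ?_⟩
    · rw [diagEquiv_single, gEntry, if_neg (by omega), one_mul]
    · rw [diagEquiv_apply, gEntry, if_neg (by omega), one_mul]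
    · rw [diagEquiv_apply, gEntry, if_neg (by omega), one_mul]⟩

/-! ### Stable weight spaces -/

variable (M : Rep.{0} ℂ (Grp GAInf))

/-- Vectors that are eigenvectors of `g_n` with eigenvalue `2^k` for all large `n`. -/
def wt (k : ℕ) : Submodule ℂ M.V where
  carrier := {m | ∃ n₀ : ℕ, ∀ n ≥ n₀, M.ρ (gEl n) m = (2 : ℂ) ^ k • m}
  add_mem' := by
    rintro x y ⟨n, hn⟩ ⟨m, hm⟩
    exact ⟨max n m, fun l hl => by
      rw [map_add, hn l (le_trans (le_max_left _ _) hl), hm l (le_trans (le_max_right _ _) hl),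
        smul_add]⟩
  zero_mem' := ⟨0, fun n _ => by simp⟩
  smul_mem' := by
    rintro c x ⟨n, hn⟩
    exact ⟨n, fun l hl => by rw [map_smul, hn l hl, smul_comm]⟩

/-- The weight zero part. -/
def zeroPart : Submodule ℂ M.V := wt M 0

/-- The part of positive weight. -/
def plusPart : Submodule ℂ M.V := ⨆ k : ℕ, wt M (k + 1)

lemma wt_succ_le (k : ℕ) : wt M (k + 1) ≤ plusPart M := le_iSup (fun k => wt M (k + 1)) k

lemma wt_le_plusPart {k : ℕ} (hk : 1 ≤ k) : wt M k ≤ plusPart M := by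
  obtain ⟨k, rfl⟩ : ∃ l, k = l + 1 := ⟨k - 1, by omega⟩
  exact wt_succ_le M k

variable {M}

lemma wt_map {M' : Rep.{0} ℂ (Grp GAInf)} (f : M ⟶ M') {k : ℕ} {m : M.V} (hm : m ∈ wt M k) :
    f.hom m ∈ wt M' k := by
  obtain ⟨n, hn⟩ := hm
  exact ⟨n, fun l hl => by rw [← Rep.hom_comm_apply, hn l hl, map_smul]⟩

lemma plusPart_map {M' : Rep.{0} ℂ (Grp GAInf)} (f : M ⟶ M') {m : M.V} (hm : m ∈ plusPart M) :
    f.hom m ∈ plusPart M' := by
  have : plusPart M ≤ (plusPart M').comap f.hom.toLinearMap := by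
    refine iSup_le fun k => ?_
    intro x hx
    exact wt_succ_le M' k (wt_map f hx)
  exact this hm

lemma zeroPart_map {M' : Rep.{0} ℂ (Grp GAInf)} (f : M ⟶ M') {m : M.V} (hm : m ∈ zeroPart M) :
    f.hom m ∈ zeroPart M' := wt_map f hm

/-- The product of the operators `g_n - 2^(k+1)`, `k < d`. -/
def annOp (M : Rep.{0} ℂ (Grp GAInf)) (n : ℕ) : ℕ → (M.V →ₗ[ℂ] M.V)
  | 0 => LinearMap.id
  | d + 1 => (M.ρ (gEl n) - (2 : ℂ) ^ (d + 1) • LinearMap.id) ∘ₗ annOp M n d

lemma annOp_eq_smul (M : Rep.{0} ℂ (Grp GAInf)) {n : ℕ} {m : M.V} {a : ℂ} (h : M.ρ (gEl n) m = a • m)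
    (d : ℕ) : annOp M n d m = (∏ k ∈ Finset.range d, (a - 2 ^ (k + 1))) • m := by
  induction d with
  | zero => simp [annOp]
  | succ d ih =>
    simp only [annOp, LinearMap.comp_apply, ih, map_smul, LinearMap.sub_apply,
      LinearMap.smul_apply, LinearMap.id_apply, h, Finset.prod_range_succ]
    rw [← sub_smul, smul_smul]

lemma exists_annOp_eq_zero {m : M.V} (hm : m ∈ plusPart M) :
    ∃ d₀ n₀ : ℕ, ∀ d ≥ d₀, ∀ n ≥ n₀, annOp M n d m = 0 := by
  unfold plusPart at hm
  induction hm using Submodule.iSup_induction' with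
  | zero => exact ⟨0, 0, by simp⟩
  | add x y _ _ hx hy =>
    obtain ⟨d₀, n₀, h⟩ := hx
    obtain ⟨d₁, n₁, h'⟩ := hy
    refine ⟨max d₀ d₁, max n₀ n₁, fun d hd n hn => ?_⟩
    rw [map_add, h d (le_trans (le_max_left _ _) hd) n (le_trans (le_max_left _ _) hn),
      h' d (le_trans (le_max_right _ _) hd) n (le_trans (le_max_right _ _) hn), add_zero]
  | mem k x hx =>
    obtain ⟨n₀, hn⟩ := hx
    refine ⟨k + 1, n₀, fun d hd n hn' => ?_⟩
    rw [annOp_eq_smul M (hn n hn'), Finset.prod_eq_zero (Finset.mem_range.2 (show k < d by omega))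
      (by simp), zero_smul]

lemma disjoint_zero_plus (M : Rep.{0} ℂ (Grp GAInf)) : Disjoint (zeroPart M) (plusPart M) := by
  rw [Submodule.disjoint_def]
  intro m hm hm'
  obtain ⟨n₀, h₀⟩ := hm
  obtain ⟨d₁, n₁, h₁⟩ := exists_annOp_eq_zero hm'
  have h := h₁ d₁ le_rfl (max n₀ n₁) (le_max_right _ _)
  rw [annOp_eq_smul M (h₀ (max n₀ n₁) (le_max_left _ _))] at h
  rcases smul_eq_zero.1 h with h | h
  · exfalso
    rw [Finset.prod_eq_zero_iff] at h
    obtain ⟨k, _, hk⟩ := h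
    have h2 : ((2 : ℂ) ^ (k + 1)) = 1 := by
      rw [pow_zero] at hk
      exact (sub_eq_zero.1 hk).symm
    have h3 : ((2 ^ (k + 1) : ℕ) : ℂ) = ((1 : ℕ) : ℂ) := by push_cast; exact h2
    have h4 : 2 ^ (k + 1) = 1 := by exact_mod_cast h3
    have : 1 < 2 ^ (k + 1) := Nat.one_lt_two_pow (by omega)
    omega
  · exact h

/-- The weight decomposition exists. -/
def HasWt (M : Rep.{0} ℂ (Grp GAInf)) : Prop := zeroPart M ⊔ plusPart M = ⊤

/-- `GA(∞)` acts trivially modulo the part of positive weight. -/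
def InvMod (M : Rep.{0} ℂ (Grp GAInf)) : Prop := ∀ (g : Grp GAInf) (m : M.V), M.ρ g m - m ∈ plusPart M

/-- Every vector is a finite sum of weight vectors. -/
lemma zero_sup_plus_eq (M : Rep.{0} ℂ (Grp GAInf)) : zeroPart M ⊔ plusPart M = ⨆ k, wt M k := by
  apply le_antisymm
  · refine sup_le (le_iSup (wt M) 0) (iSup_le fun k => le_iSup (wt M) (k + 1))
  · refine iSup_le fun k => ?_
    rcases k with _ | k
    · exact le_sup_left
    · exact (wt_succ_le M k).trans le_sup_right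

lemma exists_sum_of_hasWt (h : HasWt M) (m : M.V) :
    ∃ (d : ℕ) (x : ℕ → M.V), (∀ k, x k ∈ wt M k) ∧ m = ∑ k ∈ Finset.range d, x k := by
  have hm : m ∈ ⨆ k, wt M k := by
    rw [← zero_sup_plus_eq]
    rw [HasWt] at h
    rw [h]; trivial
  induction hm using Submodule.iSup_induction' with
  | zero => exact ⟨0, 0, fun k => by simp, by simp⟩
  | add y z _ _ hy hz =>
    obtain ⟨d, x, hx, rfl⟩ := hy
    obtain ⟨d', x', hx', rfl⟩ := hz
    refine ⟨max d d', fun k => (if k < d then x k else 0) + (if k < d' then x' k else 0),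
      fun k => ?_, ?_⟩
    · apply Submodule.add_mem
      · split_ifs
        · exact hx k
        · exact zero_mem _
      · split_ifs
        · exact hx' k
        · exact zero_mem _
    · rw [Finset.sum_add_distrib]
      congr 1
      · rw [← Finset.sum_filter]
        congr 1
        ext k; simp; omega
      · rw [← Finset.sum_filter]
        congr 1
        ext k; simp; omega
  | mem k y hy =>
    refine ⟨k + 1, fun l => if l = k then y else 0, fun l => ?_, ?_⟩
    · show (if l = k then y else 0) ∈ wt M l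
      split_ifs with hl
      · subst hl; exact hy
      · exact zero_mem _
    · simp

lemma mem_range_of_sum {M' : Rep.{0} ℂ (Grp GAInf)} (f : M' ⟶ M) (d : ℕ) :
    ∀ (x : ℕ → M.V), (∀ k, x k ∈ wt M k) →
      (∑ k ∈ Finset.range d, x k) ∈ LinearMap.range f.hom.toLinearMap →
      ∀ k < d, x k ∈ LinearMap.range f.hom.toLinearMap := by
  induction d with
  | zero => intro x _ _ k hk; omega
  | succ d ih =>
    intro x hx hsum
    -- choose `n` large for all `x k`, `k ≤ d`
    choose n₀ hn₀ using hx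
    let n := (Finset.range (d + 1)).sup n₀
    have hn : ∀ k < d + 1, M.ρ (gEl n) (x k) = (2 : ℂ) ^ k • x k := fun k hk =>
      hn₀ k n (Finset.le_sup (Finset.mem_range.2 hk))
    have h1 : (∑ k ∈ Finset.range d, ((2 : ℂ) ^ k - 2 ^ d) • x k) ∈
        LinearMap.range f.hom.toLinearMap := by
      have h2 : M.ρ (gEl n) (∑ k ∈ Finset.range (d + 1), x k) -
          (2 : ℂ) ^ d • (∑ k ∈ Finset.range (d + 1), x k) ∈ LinearMap.range f.hom.toLinearMap := by
        apply Submodule.sub_mem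
        · obtain ⟨y, hy⟩ := hsum
          refine ⟨M'.ρ (gEl n) y, ?_⟩
          rw [← hy]
          exact Rep.hom_comm_apply f (gEl n) y
        · exact Submodule.smul_mem _ _ hsum
      convert h2 using 1
      rw [map_sum, Finset.smul_sum, ← Finset.sum_sub_distrib, Finset.sum_range_succ,
        hn d (by omega), sub_self, add_zero]
      refine Finset.sum_congr rfl fun k hk => ?_
      rw [hn k (by have := Finset.mem_range.1 hk; omega), sub_smul]
    have h3 := ih (fun k => ((2 : ℂ) ^ k - 2 ^ d) • x k)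
      (fun k => Submodule.smul_mem _ _ ⟨n₀ k, hn₀ k⟩) h1
    have h4 : ∀ k < d, x k ∈ LinearMap.range f.hom.toLinearMap := by
      intro k hk
      have h5 := h3 k hk
      have hne : ((2 : ℂ) ^ k - 2 ^ d) ≠ 0 := by
        intro h0
        have h6 : (2 : ℂ) ^ k = 2 ^ d := sub_eq_zero.1 h0
        have h7 : ((2 ^ k : ℕ) : ℂ) = ((2 ^ d : ℕ) : ℂ) := by push_cast; exact h6
        have h8 : 2 ^ k = 2 ^ d := by exact_mod_cast h7
        have := Nat.pow_right_injective le_rfl h8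
        omega
      have := Submodule.smul_mem _ ((2 : ℂ) ^ k - 2 ^ d)⁻¹ h5
      rwa [smul_smul, inv_mul_cancel₀ hne, one_smul] at this
    intro k hk
    rcases Nat.lt_succ_iff_lt_or_eq.1 hk with hk | rfl
    · exact h4 k hk
    · rw [Finset.sum_range_succ] at hsum
      have := Submodule.sub_mem _ hsum (Submodule.sum_mem _ (fun j hj => h4 j (Finset.mem_range.1 hj)))
      simpa using this

lemma HasWt.of_forall (h : ∀ m : M.V, m ∈ ⨆ k, wt M k) : HasWt M := by
  rw [HasWt, zero_sup_plus_eq, eq_top_iff]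
  intro m _
  exact h m

lemma HasWt.mem (h : HasWt M) (m : M.V) : m ∈ ⨆ k, wt M k := by
  rw [← zero_sup_plus_eq]
  rw [HasWt] at h
  rw [h]; trivial

lemma iSup_wt_map {M' : Rep.{0} ℂ (Grp GAInf)} (f : M ⟶ M') {m : M.V} (hm : m ∈ ⨆ k, wt M k) :
    f.hom m ∈ ⨆ k, wt M' k := by
  have : (⨆ k, wt M k) ≤ (⨆ k, wt M' k).comap f.hom.toLinearMap := by
    refine iSup_le fun k => ?_
    intro x hx
    exact (le_iSup (wt M') k) (wt_map f hx)
  exact this hm

lemma HasWt.of_mono {M' : Rep.{0} ℂ (Grp GAInf)} (f : M' ⟶ M) [Mono f] (h : HasWt M) : HasWt M' := by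
  have hf := (Rep.mono_iff_injective f).1 inferInstance
  apply HasWt.of_forall
  intro m
  obtain ⟨d, x, hx, hsum⟩ := exists_sum_of_hasWt h (f.hom m)
  have := mem_range_of_sum f d x hx (by rw [← hsum]; exact ⟨m, rfl⟩)
  choose! y hy using this
  have hy' : ∀ k < d, y k ∈ wt M' k := by
    intro k hk
    obtain ⟨n₀, hn₀⟩ := hx k
    refine ⟨n₀, fun n hn => hf ?_⟩
    have h1 : f.hom (y k) = x k := hy k hk
    rw [Rep.hom_comm_apply, map_smul, h1, hn₀ n hn]
  have hm : m = ∑ k ∈ Finset.range d, y k := by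
    apply hf
    rw [hsum]
    rw [map_sum]
    refine Finset.sum_congr rfl fun k hk => (hy k (Finset.mem_range.1 hk)).symm
  rw [hm]
  refine Submodule.sum_mem _ fun k hk => ?_
  exact (le_iSup (wt M') k) (hy' k (Finset.mem_range.1 hk))

lemma HasWt.of_epi {M' : Rep.{0} ℂ (Grp GAInf)} (f : M ⟶ M') [Epi f] (h : HasWt M) : HasWt M' := by
  have hf := (Rep.epi_iff_surjective f).1 inferInstance
  apply HasWt.of_forall
  intro m'
  obtain ⟨m, rfl⟩ := hf m'
  exact iSup_wt_map f (h.mem m)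

lemma InvMod.of_epi {M' : Rep.{0} ℂ (Grp GAInf)} (f : M ⟶ M') [Epi f] (h : InvMod M) : InvMod M' := by
  have hf := (Rep.epi_iff_surjective f).1 inferInstance
  intro g m'
  obtain ⟨m, rfl⟩ := hf m'
  rw [← Rep.hom_comm_apply]
  erw [← map_sub f.hom]
  exact plusPart_map f (h g m)

lemma InvMod.of_mono {M' : Rep.{0} ℂ (Grp GAInf)} (f : M' ⟶ M) [Mono f] (h : InvMod M)
    (h' : HasWt M') : InvMod M' := by
  have hf := (Rep.mono_iff_injective f).1 inferInstance
  intro g m
  set z := M'.ρ g m - m with hz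
  have hz' : z ∈ zeroPart M' ⊔ plusPart M' := by
    rw [HasWt] at h'
    rw [h']; trivial
  obtain ⟨a, ha, b, hb, hab⟩ := Submodule.mem_sup.1 hz'
  have h1 : f.hom z ∈ plusPart M := by
    rw [hz]
    erw [map_sub f.hom]
    rw [Rep.hom_comm_apply]
    exact h g _
  have h2 : f.hom a ∈ plusPart M := by
    have : f.hom a = f.hom z - f.hom b := by
      rw [← hab, map_add]; simp
    rw [this]
    exact Submodule.sub_mem _ h1 (plusPart_map f hb)
  have h3 : f.hom a = 0 := by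
    have := Submodule.disjoint_def.1 (disjoint_zero_plus M)
    exact this _ (zeroPart_map f ha) h2
  have h4 : a = 0 := hf (by rw [h3, map_zero])
  rw [← hab, h4, zero_add]
  exact hb

/-! ### The generating representations -/

lemma hasWt_unit : HasWt (𝟙_ (Rep.{0} ℂ (Grp GAInf))) := by
  apply HasWt.of_forall
  intro m
  refine (le_iSup (wt _) 0) ⟨0, fun n _ => ?_⟩
  simp

lemma invMod_unit : InvMod (𝟙_ (Rep.{0} ℂ (Grp GAInf))) := by
  intro g m
  have : (𝟙_ (Rep.{0} ℂ (Grp GAInf))).ρ g m - m = 0 := by simp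
  rw [this]
  exact zero_mem _

lemma stdRep_ρ (g : Grp GAInf) (v : CInf) : (stdRep GAInf).ρ g v = g.1 v := rfl

lemma single_zero_mem (a : ℂ) : (Finsupp.single 0 a : CInf) ∈ wt (stdRep GAInf) 0 := by
  refine ⟨0, fun n _ => ?_⟩
  rw [stdRep_ρ]
  show diagEquiv (gEntry n) (gEntry_ne_zero n) (Finsupp.single 0 a) = _
  rw [diagEquiv_single, gEntry, if_neg (by omega)]
  show (Finsupp.single 0 (1 * a) : CInf) = (2 : ℂ) ^ 0 • (Finsupp.single 0 a : CInf)
  rw [one_mul, pow_zero, one_smul]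

lemma single_succ_mem (i : ℕ) (a : ℂ) :
    (Finsupp.single (i + 1) a : CInf) ∈ wt (stdRep GAInf) 1 := by
  refine ⟨i + 1, fun n hn => ?_⟩
  rw [stdRep_ρ]
  show diagEquiv (gEntry n) (gEntry_ne_zero n) (Finsupp.single (i + 1) a) = _
  rw [diagEquiv_single, gEntry, if_pos (by omega)]
  show (Finsupp.single (i + 1) (2 * a) : CInf) = (2 : ℂ) ^ 1 • (Finsupp.single (i + 1) a : CInf)
  rw [pow_one, Finsupp.smul_single, smul_eq_mul]

lemma hasWt_stdRep : HasWt (stdRep GAInf) := by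
  apply HasWt.of_forall
  intro (v : CInf)
  induction v using Finsupp.induction_linear with
  | zero => exact zero_mem _
  | add x y hx hy => exact add_mem hx hy
  | single i a =>
    rcases i with _ | i
    · exact (le_iSup (wt _) 0) (single_zero_mem a)
    · exact (le_iSup (wt _) 1) (single_succ_mem i a)

lemma mem_plusPart_stdRep (v : CInf) (h : v 0 = 0) : v ∈ plusPart (stdRep GAInf) := by
  have : v = v.sum (fun i a => (Finsupp.single i a : CInf)) := by simp
  rw [this]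
  refine Submodule.sum_mem _ fun i hi => ?_
  rcases i with _ | i
  · show (Finsupp.single 0 (v 0) : CInf) ∈ plusPart (stdRep GAInf)
    rw [h, Finsupp.single_zero]
    exact zero_mem _
  · exact wt_succ_le (stdRep GAInf) 0 (single_succ_mem i _)

lemma invMod_stdRep : InvMod (stdRep GAInf) := by
  intro g (v : CInf)
  apply mem_plusPart_stdRep
  show (g.1 v - v) 0 = 0
  rw [Finsupp.sub_apply, g.2.2 v, sub_self]

variable {N : Rep.{0} ℂ (Grp GAInf)}

lemma wt_tmul {k l : ℕ} {x : M.V} {y : N.V} (hx : x ∈ wt M k) (hy : y ∈ wt N l) :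
    (x ⊗ₜ[ℂ] y : TensorProduct ℂ M.V N.V) ∈ wt (M ⊗ N) (k + l) := by
  obtain ⟨n₀, h₀⟩ := hx
  obtain ⟨n₁, h₁⟩ := hy
  refine ⟨max n₀ n₁, fun n hn => ?_⟩
  show (M.ρ (gEl n) x) ⊗ₜ[ℂ] (N.ρ (gEl n) y) = _
  rw [h₀ n (le_trans (le_max_left _ _) hn), h₁ n (le_trans (le_max_right _ _) hn), pow_add,
    TensorProduct.tmul_smul, ← TensorProduct.smul_tmul', smul_smul, mul_comm]

lemma hasWt_tensor (hM : HasWt M) (hN : HasWt N) : HasWt (M ⊗ N) := by
  apply HasWt.of_forall
  intro (z : TensorProduct ℂ M.V N.V)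
  induction z using TensorProduct.induction_on with
  | zero => exact zero_mem _
  | add x y hx hy => exact add_mem hx hy
  | tmul x y =>
    obtain ⟨d, a, ha, rfl⟩ := exists_sum_of_hasWt hM x
    obtain ⟨e, b, hb, rfl⟩ := exists_sum_of_hasWt hN y
    rw [TensorProduct.sum_tmul]
    refine Submodule.sum_mem _ fun i _ => ?_
    rw [TensorProduct.tmul_sum]
    refine Submodule.sum_mem _ fun j _ => ?_
    exact (le_iSup (wt _) (i + j)) (wt_tmul (ha i) (hb j))

lemma plus_tmul_mem (hN : HasWt N) {x : M.V} (hx : x ∈ plusPart M) (y : N.V) :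
    (x ⊗ₜ[ℂ] y : TensorProduct ℂ M.V N.V) ∈ plusPart (M ⊗ N) := by
  obtain ⟨e, b, hb, rfl⟩ := exists_sum_of_hasWt hN y
  rw [TensorProduct.tmul_sum]
  refine Submodule.sum_mem _ fun j _ => ?_
  have : plusPart M ≤ (plusPart (M ⊗ N)).comap ((TensorProduct.mk ℂ M.V N.V).flip (b j)) := by
    refine iSup_le fun k => ?_
    intro x hx
    exact wt_le_plusPart (M ⊗ N) (show 1 ≤ (k + 1) + j by omega) (wt_tmul hx (hb j))
  exact this hx

lemma tmul_plus_mem (hM : HasWt M) (x : M.V) {y : N.V} (hy : y ∈ plusPart N) :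
    (x ⊗ₜ[ℂ] y : TensorProduct ℂ M.V N.V) ∈ plusPart (M ⊗ N) := by
  obtain ⟨e, b, hb, rfl⟩ := exists_sum_of_hasWt hM x
  rw [TensorProduct.sum_tmul]
  refine Submodule.sum_mem _ fun j _ => ?_
  have : plusPart N ≤ (plusPart (M ⊗ N)).comap (TensorProduct.mk ℂ M.V N.V (b j)) := by
    refine iSup_le fun k => ?_
    intro x hx
    exact wt_le_plusPart (M ⊗ N) (show 1 ≤ j + (k + 1) by omega) (wt_tmul (hb j) hx)
  exact this hy

lemma invMod_tensor (hM : HasWt M) (hN : HasWt N) (hM' : InvMod M) (hN' : InvMod N) :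
    InvMod (M ⊗ N) := by
  intro g (z : TensorProduct ℂ M.V N.V)
  induction z using TensorProduct.induction_on with
  | zero =>
    rw [map_zero, sub_zero]; exact zero_mem _
  | add x y hx hy =>
    rw [map_add, add_sub_add_comm]
    exact add_mem hx hy
  | tmul x y =>
    have h : (M ⊗ N).ρ g (x ⊗ₜ[ℂ] y) - x ⊗ₜ[ℂ] y =
        (M.ρ g x - x) ⊗ₜ[ℂ] (N.ρ g y) + x ⊗ₜ[ℂ] (N.ρ g y - y) := by
      show (M.ρ g x) ⊗ₜ[ℂ] (N.ρ g y) - x ⊗ₜ[ℂ] y = _
      rw [TensorProduct.sub_tmul, TensorProduct.tmul_sub]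
      abel
    rw [h]
    exact add_mem (plus_tmul_mem hN (hM' g x) _) (tmul_plus_mem hM _ (hN' g y))

lemma hasWt_invMod_tensorPow (n : ℕ) :
    HasWt (tensorPow GAInf n) ∧ InvMod (tensorPow GAInf n) := by
  induction n with
  | zero => exact ⟨hasWt_unit, invMod_unit⟩
  | succ n ih =>
    exact ⟨hasWt_tensor hasWt_stdRep ih.1,
      invMod_tensor hasWt_stdRep ih.1 invMod_stdRep ih.2⟩

lemma biproduct_sum_eq {J : Type} [Fintype J] (F : J → Rep.{0} ℂ (Grp GAInf)) (x : (⨁ F : Rep.{0} ℂ (Grp GAInf)).V) :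
    x = ∑ j, (biproduct.ι F j).hom ((biproduct.π F j).hom x) := by
  have h : (∑ j, biproduct.π F j ≫ biproduct.ι F j) = 𝟙 (⨁ F) := biproduct.total
  have h2 := congrArg (fun f : (⨁ F) ⟶ (⨁ F) => f.hom x) h
  simp only [Rep.sum_hom, Representation.IntertwiningMap.sum_apply] at h2
  exact h2.symm

lemma hasWt_biproduct {J : Type} [Fintype J] (F : J → Rep.{0} ℂ (Grp GAInf))
    (h : ∀ j, HasWt (F j)) : HasWt (⨁ F) := by
  apply HasWt.of_forall
  intro x
  rw [biproduct_sum_eq F x]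
  refine Submodule.sum_mem _ fun j _ => ?_
  exact iSup_wt_map (biproduct.ι F j) ((h j).mem _)

lemma invMod_biproduct {J : Type} [Fintype J] (F : J → Rep.{0} ℂ (Grp GAInf))
    (h : ∀ j, InvMod (F j)) : InvMod (⨁ F) := by
  intro g x
  have h1 : (⨁ F : Rep.{0} ℂ (Grp GAInf)).ρ g x - x =
      ∑ j, (biproduct.ι F j).hom ((F j).ρ g ((biproduct.π F j).hom x) - (biproduct.π F j).hom x) := by
    rw [biproduct_sum_eq F ((⨁ F : Rep.{0} ℂ (Grp GAInf)).ρ g x - x)]
    refine Finset.sum_congr rfl fun j _ => ?_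
    congr 1
    rw [map_sub, Rep.hom_comm_apply]
  rw [h1]
  refine Submodule.sum_mem _ fun j _ => ?_
  exact plusPart_map (biproduct.ι F j) (h j g _)

lemma hasWt_invMod_of_isAlgebraic (h : isAlgebraic GAInf M) : HasWt M ∧ InvMod M := by
  obtain ⟨J, hJ, n, N, i, p, hi, hp⟩ := h
  have h1 := hasWt_biproduct (fun j => tensorPow GAInf (n j)) (fun j => (hasWt_invMod_tensorPow (n j)).1)
  have h2 := invMod_biproduct (fun j => tensorPow GAInf (n j)) (fun j => (hasWt_invMod_tensorPow (n j)).2)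
  have h3 : HasWt N := h1.of_mono i
  exact ⟨h3.of_epi p, (h2.of_mono i h3).of_epi p⟩

end Pool.Agent.MP8d69b9
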